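import Pool.Agent.K9h21.RP.Stm

set_option autoImplicit false

/-!
# Project RP: independence of the extensions by the `n`-th roots, all levels

From TRC (traces), LOXQ (Loxton's theorem) and TOR (torsion points); cf. `Pool/Agent/N76/RG/NsqG.lean`.
-/

namespace Pool.Agent.K9h21.RP

open Polynomial IntermediateField Module
open Pool.Agent.N76.RG (RU S_TRC S_LOXQ)
open scoped Real

namespace Npw

/-- Loxton's theorem over a number field -/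
theorem loxk.{u, v} (h1 : S_TRC.{u, v}) (h2 : S_LOXQ.{v}) (K : Type u) [Field K] [NumberField K]
    (σ : K →+* ℂ) (B : ℝ) : ∃ (M : ℕ) (θ : Fin M → ℂ), ∀ (N : ℕ), 0 < N →
      ∀ (E : Type v) [Field E] [NumberField E] [Algebra K E] (ζ : E), IsPrimitiveRoot ζ N →
      ∀ S : E →+* ℂ, S.comp (algebraMap K E) = σ → ∀ y ∈ K⟮ζ⟯, IsIntegral ℤ y →
      (∀ τ : E →+* ℂ, ‖τ y‖ ≤ B) → ∃ z : Fin M → ℂ, (∀ i, RU (z i)) ∧ S y = ∑ i, θ i * z i := by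
  obtain ⟨m, θ', C, hT⟩ := h1 K σ
  obtain ⟨M', hL⟩ := h2 (C * B)
  refine ⟨m * M', fun i => θ' (finProdFinEquiv.symm i).1,
    fun N hN E _ _ _ ζ hζ S hS y hy hyi hyB => ?_⟩
  obtain ⟨x, hx1, hx2, hx3, hx4⟩ := hT N hN E ζ hζ S hS y hy hyi B hyB
  have h5 : ∀ j, ∃ z : Fin M' → ℂ, (∀ i, RU (z i)) ∧ S (x j) = ∑ i, z i := fun j =>
    hL N hN E ζ hζ (x j) (hx1 j) (hx2 j) (hx3 j) S
  choose z hz1 hz2 using h5
  refine ⟨fun i => z (finProdFinEquiv.symm i).1 (finProdFinEquiv.symm i).2, fun i => hz1 _ _, ?_⟩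
  rw [hx4, Equiv.sum_comp finProdFinEquiv.symm (fun p : Fin m × Fin M' => θ' p.1 * z p.1 p.2),
    Fintype.sum_prod_type]
  refine Finset.sum_congr rfl fun j _ => ?_
  rw [hz2, Finset.mul_sum]

/-- roots of unity of large order avoid a finite set -/
theorem avoid (Z : Set ℂ) (hZ : Z.Finite) : ∃ N₁ : ℕ, ∀ (n : ℕ) (ζ : ℂ), IsPrimitiveRoot ζ n →
    N₁ ≤ n → ζ ∉ Z := by
  obtain ⟨A, hA⟩ := (hZ.image orderOf).bddAbove
  refine ⟨A + 1, fun n ζ hζ hn h => ?_⟩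
  have h1 : orderOf ζ ≤ A := hA ⟨ζ, h, rfl⟩
  rw [← hζ.eq_orderOf] at h1
  omega

theorem facts {K E : Type*} [Field K] [NumberField K] [Field E] [NumberField E] [Algebra K E] (n : ℕ) (hn0 : 2 ≤ n)
    (w : K) (hw4 : IsIntegral ℤ ((n : K) ^ n * w)) (M : ℝ) (hM0 : 0 ≤ M) (hM : ∀ t : K →+* ℂ, ‖t w‖ ≤ M) (m : ℕ)
    (hm : 0 < m) (e d : E) (he : IsPrimitiveRoot e m) (hd : d ^ n = (n : E) ^ n * (e + e⁻¹ - algebraMap K E w)) :
    IsIntegral ℤ d ∧ (∀ τ : E →+* ℂ, ‖τ d‖ ≤ n * (2 + M)) ∧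
    (∀ S : E →+* ℂ, (S d / n) ^ n = S e + (S e)⁻¹ - S (algebraMap K E w)) := by
  have hn : 0 < n := by omega
  have hnC : (n : ℂ) ≠ 0 := Nat.cast_ne_zero.2 hn.ne'
  have hwint : IsIntegral ℤ ((n : E) ^ n * algebraMap K E w) := by
    have h3 := hw4.map (algebraMap K E).toIntAlgHom
    have h4 : (algebraMap K E).toIntAlgHom ((n : K) ^ n * w) = (n : E) ^ n * algebraMap K E w := by
      show algebraMap K E ((n : K) ^ n * w) = _
      rw [map_mul, map_pow, map_natCast]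
    rwa [h4] at h3
  refine ⟨?_, ?_, ?_⟩
  · refine IsIntegral.of_pow (n := n) hn ?_
    rw [hd, mul_sub]
    refine IsIntegral.sub ?_ hwint
    have h3 : IsIntegral ℤ (n : E) := by
      have := isIntegral_algebraMap (R := ℤ) (A := E) (x := (n : ℤ))
      simpa using this
    exact (h3.pow n).mul ((he.isIntegral hm).add (he.inv.isIntegral hm))
  · intro τ
    have h3 : ‖τ e‖ = 1 :=
      Complex.norm_eq_one_of_pow_eq_one (by rw [← map_pow, he.pow_eq_one, map_one]) hm.ne'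
    have h7 : τ d ^ n = (n : ℂ) ^ n * (τ e + (τ e)⁻¹ - τ (algebraMap K E w)) := by
      rw [← map_pow, hd, map_mul, map_sub, map_add, map_inv₀, map_pow, map_natCast]
    have h4 : ‖τ e + (τ e)⁻¹ - τ (algebraMap K E w)‖ ≤ 2 + M := by
      calc _ ≤ ‖τ e + (τ e)⁻¹‖ + ‖τ (algebraMap K E w)‖ := norm_sub_le _ _
        _ ≤ (‖τ e‖ + ‖(τ e)⁻¹‖) + M := add_le_add (norm_add_le _ _) (hM (τ.comp (algebraMap K E)))
        _ = 2 + M := by rw [norm_inv, h3]; norm_num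
    have h5 : ‖τ d‖ ^ n ≤ (n * (2 + M)) ^ n := by
      rw [← norm_pow, h7, norm_mul, norm_pow, Complex.norm_natCast, mul_pow]
      refine mul_le_mul_of_nonneg_left (h4.trans ?_) (by positivity)
      exact le_self_pow₀ (by linarith) hn.ne'
    exact le_of_pow_le_pow_left₀ hn.ne' (by positivity) h5
  · intro S
    have h4 : S d ^ n = (n : ℂ) ^ n * (S e + (S e)⁻¹ - S (algebraMap K E w)) := by
      rw [← map_pow, hd, map_mul, map_sub, map_add, map_inv₀, map_pow, map_natCast]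
    rw [div_pow, h4]
    field_simp

theorem core.{u, v} (h1 : S_TRC.{u, v}) (h2 : S_LOXQ.{v}) (h3 : S_TOR) (K : Type u) [Field K]
    [NumberField K] (n : ℕ) (hn2 : 2 ≤ n) (w : K) (hw : w ^ 2 ≠ 4) (hw4 : IsIntegral ℤ ((n : K) ^ n * w)) (M : ℝ)
    (hM : ∀ t : K →+* ℂ, ‖t w‖ ≤ M) (σ : K →+* ℂ) (i j : ℕ) (hi : 0 < i) (hin : i < n) (hj : 0 < j) (hjn : j < n) :
    ∃ N₀ : ℕ, ∀ (N : ℕ), 0 < N → ∀ (E : Type v) [Field E] [NumberField E] [Algebra K E] (ζ : E),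
    IsPrimitiveRoot ζ N → ∀ (S : E →+* ℂ), S.comp (algebraMap K E) = σ →
    ∀ (m m' : ℕ) (e e' d d' : E), N₀ ≤ m → N₀ ≤ m' → IsPrimitiveRoot e m → IsPrimitiveRoot e' m' →
    d ^ n = (n : E) ^ n * (e + e⁻¹ - algebraMap K E w) → d' ^ n = (n : E) ^ n * (e' + e'⁻¹ - algebraMap K E w) →
    d ^ i ∉ K⟮ζ⟯ ∧ (e' + e'⁻¹ ≠ e + e⁻¹ → (w = 0 → e' + e'⁻¹ ≠ -(e + e⁻¹)) → d ^ i * d' ^ j ∉ K⟮ζ⟯) := by
  have hM0 : 0 ≤ M := (norm_nonneg _).trans (hM σ)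
  have hn : 0 < n := by omega
  have hnC : (n : ℂ) ≠ 0 := Nat.cast_ne_zero.2 hn.ne'
  set D : ℝ := n * (2 + M) with hD
  have hD1 : 1 ≤ D := by
    have h4 : (2 : ℝ) ≤ n := by exact_mod_cast hn2
    nlinarith
  obtain ⟨m₀, θ, hL⟩ := loxk h1 h2 K σ (D ^ (i + j))
  have hσw : (σ w) ^ 2 ≠ 4 := by
    intro h
    apply hw
    apply σ.injective
    rw [map_pow, h]
    exact (map_ofNat σ 4).symm
  obtain ⟨Z₁, hZ₁, hT₁⟩ := h3 (σ w) n i j m₀ (fun s => θ s / (n : ℂ) ^ i) hσw hi hin hj hjn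
  obtain ⟨Z₂, hZ₂, hT₂⟩ := h3 (σ w) n i j m₀ (fun s => θ s / (n : ℂ) ^ (i + j)) hσw hi hin hj hjn
  obtain ⟨A, hA⟩ := avoid (Z₁ ∪ Z₂) (hZ₁.union hZ₂)
  refine ⟨A + 1, fun N hN E _ _ _ ζ hζ S hS m m' e e' d d' hm hm' he he' hd hd' => ?_⟩
  have hSw : S (algebraMap K E w) = σ w := by rw [← hS]; rfl
  have first : ∀ (m : ℕ) (e d : E), A + 1 ≤ m → IsPrimitiveRoot e m →
      d ^ n = (n : E) ^ n * (e + e⁻¹ - algebraMap K E w) → d ^ i ∉ K⟮ζ⟯ := by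
    intro m e d hm he hd hdK
    have hm0 : 0 < m := by omega
    obtain ⟨i1, b1, s1⟩ := facts n hn2 w hw4 M hM0 hM m hm0 e d he hd
    obtain ⟨z, hz, hSz⟩ := hL N hN E ζ hζ S hS (d ^ i) hdK (i1.pow i) (fun τ => by
      rw [map_pow, norm_pow, pow_add]
      have h5 : ‖τ d‖ ^ i ≤ D ^ i := pow_le_pow_left₀ (norm_nonneg _) (b1 τ) i
      have h6 : 1 ≤ D ^ j := one_le_pow₀ hD1
      calc ‖τ d‖ ^ i ≤ D ^ i * 1 := by rw [mul_one]; exact h5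
        _ ≤ D ^ i * D ^ j := mul_le_mul_of_nonneg_left h6 (by positivity))
    have hZ := hA m (S e) (he.map_of_injective S.injective) (by omega)
    refine (hT₁ (S e) ⟨m, hm0, by rw [← map_pow, he.pow_eq_one, map_one]⟩
      (fun h => hZ (Or.inl h)) z hz).1 ?_
    have h8 : ∑ s, θ s / (n : ℂ) ^ i * z s = (S d / n) ^ i := by
      rw [div_pow, ← map_pow, hSz, Finset.sum_div]
      exact Finset.sum_congr rfl fun s _ => by ring
    rw [h8, ← pow_mul, mul_comm i n, pow_mul, s1 S, hSw]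
  refine ⟨first m e d hm he hd, fun hne hne0 hK => ?_⟩
  have hm0 : 0 < m := by omega
  have hm0' : 0 < m' := by omega
  obtain ⟨i1, b1, s1⟩ := facts n hn2 w hw4 M hM0 hM m hm0 e d he hd
  obtain ⟨i2, b2, s2⟩ := facts n hn2 w hw4 M hM0 hM m' hm0' e' d' he' hd'
  have hd'0 : d' ≠ 0 := fun h => first m' e' d' hm' he' hd' (by
    rw [h, zero_pow hi.ne']
    exact zero_mem _)
  have hs' : S e' + (S e')⁻¹ ≠ σ w := by
    intro h
    have h6 := s2 S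
    rw [hSw, h, sub_self] at h6
    have h7 := (pow_eq_zero_iff hn.ne').1 h6
    rw [div_eq_zero_iff] at h7
    rcases h7 with h7 | h7
    · exact hd'0 ((map_eq_zero S).1 h7)
    · exact hnC h7
  obtain ⟨z, hz, hSz⟩ := hL N hN E ζ hζ S hS (d ^ i * d' ^ j) hK ((i1.pow i).mul (i2.pow j)) (fun τ => by
    rw [map_mul, norm_mul, map_pow, map_pow, norm_pow, norm_pow, pow_add]
    exact mul_le_mul (pow_le_pow_left₀ (norm_nonneg _) (b1 τ) i) (pow_le_pow_left₀ (norm_nonneg _) (b2 τ) j)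
      (by positivity) (by positivity))
  have hsum : ∑ s, θ s / (n : ℂ) ^ (i + j) * z s = (S d / n) ^ i * (S d' / n) ^ j := by
    have h9 : (S d / n) ^ i * (S d' / n) ^ j = S (d ^ i * d' ^ j) / (n : ℂ) ^ (i + j) := by
      rw [map_mul, map_pow, map_pow, div_pow, div_pow, pow_add]
      field_simp
    rw [h9, hSz, Finset.sum_div]
    exact Finset.sum_congr rfl fun s _ => by ring
  have hprod : (∑ s, θ s / (n : ℂ) ^ (i + j) * z s) ^ n = (S e + (S e)⁻¹ - σ w) ^ i * (S e' + (S e')⁻¹ - σ w) ^ j := by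
    rw [hsum, mul_pow, ← pow_mul, mul_comm i n, pow_mul, s1 S, ← pow_mul, mul_comm j n, pow_mul, s2 S, hSw]
  have hZ := hA m (S e) (he.map_of_injective S.injective) (by omega)
  have hp : S e ^ m = 1 := by rw [← map_pow, he.pow_eq_one, map_one]
  have hp' : S e' ^ m' = 1 := by rw [← map_pow, he'.pow_eq_one, map_one]
  rcases (hT₂ (S e) ⟨m, hm0, hp⟩ (fun h => hZ (Or.inr h)) z hz).2 (S e') ⟨m', hm0', hp'⟩ hs' hprod
    with h8 | ⟨h0, h8⟩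
  · apply hne
    apply S.injective
    rw [map_add, map_add, map_inv₀, map_inv₀]
    exact h8
  · have hw0 : w = 0 := σ.injective (by rw [h0, map_zero])
    refine hne0 hw0 (S.injective ?_)
    rw [map_neg, map_add, map_add, map_inv₀, map_inv₀]
    exact h8

end Npw

/-- NPW: independence of the extensions by the `n`-th roots, all levels -/
theorem npw.{u, v} (h1 : S_TRC.{u, v}) (h2 : S_LOXQ.{v}) (h3 : S_TOR) : S_NPW.{u, v} := by
  classical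
  intro K _ _ n w hn2 hw hw4
  obtain ⟨M, hM⟩ : ∃ M : ℝ, ∀ t : K →+* ℂ, ‖t w‖ ≤ M := by
    obtain ⟨M, hM⟩ := (Set.finite_range fun t : K →+* ℂ => ‖t w‖).bddAbove
    exact ⟨M, fun t => hM ⟨t, rfl⟩⟩
  have key : ∀ (σ : K →+* ℂ) (p : Fin n × Fin n), ∃ N₀ : ℕ, 0 < (p.1 : ℕ) → 0 < (p.2 : ℕ) → ∀ (N : ℕ), 0 < N →
      ∀ (E : Type v) [Field E] [NumberField E] [Algebra K E] (ζ : E),
      IsPrimitiveRoot ζ N → ∀ (S : E →+* ℂ), S.comp (algebraMap K E) = σ →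
      ∀ (m m' : ℕ) (e e' d d' : E), N₀ ≤ m → N₀ ≤ m' → IsPrimitiveRoot e m → IsPrimitiveRoot e' m' →
      d ^ n = (n : E) ^ n * (e + e⁻¹ - algebraMap K E w) → d' ^ n = (n : E) ^ n * (e' + e'⁻¹ - algebraMap K E w) →
      d ^ (p.1 : ℕ) ∉ K⟮ζ⟯ ∧ (e' + e'⁻¹ ≠ e + e⁻¹ → (w = 0 → e' + e'⁻¹ ≠ -(e + e⁻¹)) →
        d ^ (p.1 : ℕ) * d' ^ (p.2 : ℕ) ∉ K⟮ζ⟯) := by
    intro σ p
    by_cases hp : 0 < (p.1 : ℕ) ∧ 0 < (p.2 : ℕ)
    · obtain ⟨N₀, hN₀⟩ := Npw.core h1 h2 h3 K n hn2 w hw hw4 M hM σ p.1 p.2 hp.1 p.1.2 hp.2 p.2.2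
      exact ⟨N₀, fun _ _ => hN₀⟩
    · exact ⟨0, fun h h' => absurd ⟨h, h'⟩ hp⟩
  choose N₁ hN₁ using key
  refine ⟨Finset.univ.sup fun σ => Finset.univ.sup (N₁ σ), fun N hN E _ _ _ ζ hζ m m' e e' d d' hm hm' he he' hd hd'
    i j hi hin hj hjn => ?_⟩
  obtain ⟨S⟩ : Nonempty (E →+* ℂ) := inferInstance
  have h5 : N₁ (S.comp (algebraMap K E)) (⟨i, hin⟩, ⟨j, hjn⟩) ≤
      Finset.univ.sup fun σ => Finset.univ.sup (N₁ σ) :=
    (Finset.le_sup (f := N₁ (S.comp (algebraMap K E))) (Finset.mem_univ _)).trans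
      (Finset.le_sup (f := fun σ : K →+* ℂ => Finset.univ.sup (N₁ σ)) (Finset.mem_univ _))
  exact hN₁ (S.comp (algebraMap K E)) (⟨i, hin⟩, ⟨j, hjn⟩) hi hj N hN E ζ hζ S rfl m m' e e' d d' (h5.trans hm)
    (h5.trans hm') he he' hd hd'

end Pool.Agent.K9h21.RP
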