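import Pool.Agent.K9h21.RP.StmE

/-!
# Functions on the roots of unity with vanishing Fourier coefficients are constant

Proof of `S_FOU` (leaf FOU, helper24).
-/

set_option autoImplicit false

namespace Pool.Agent.K9h21.RP

open Polynomial

theorem fou.{v} : S_FOU.{v} := by
  intro L _ s₂ n ω hn _ A hA
  classical
  have hn0 : (n : ℂ) ≠ 0 := Nat.cast_ne_zero.2 hn.ne'
  have key : ∀ ξ₀ ∈ nthRootsFinset n (1 : L),
      (n : ℂ) * A ξ₀ = ∑ ξ ∈ nthRootsFinset n (1 : L), A ξ := by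
    intro ξ₀ hξ₀
    have h01 : ξ₀ ^ n = 1 := (mem_nthRootsFinset hn _).1 hξ₀
    have hu1 : s₂ ξ₀ ^ n = 1 := by rw [← map_pow, h01, map_one]
    have hu0 : s₂ ξ₀ ≠ 0 := fun h0 => by rw [h0, zero_pow hn.ne'] at hu1; exact zero_ne_one hu1
    have geo : ∀ ξ ∈ nthRootsFinset n (1 : L), ∑ j ∈ Finset.range n, (s₂ ξ * (s₂ ξ₀)⁻¹) ^ j =
        if ξ = ξ₀ then (n : ℂ) else 0 := by
      intro ξ hξ
      have h1 : ξ ^ n = 1 := (mem_nthRootsFinset hn _).1 hξ
      have hv1 : s₂ ξ ^ n = 1 := by rw [← map_pow, h1, map_one]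
      split_ifs with he
      · rw [he, mul_inv_cancel₀ hu0]
        simp
      · have h2 := geom_sum_mul (s₂ ξ * (s₂ ξ₀)⁻¹) n
        rw [mul_pow, inv_pow, hv1, hu1, inv_one, one_mul, sub_self, mul_eq_zero] at h2
        rcases h2 with h2 | h2
        · exact h2
        · exfalso
          apply he
          have h3 : s₂ ξ * (s₂ ξ₀)⁻¹ = 1 := sub_eq_zero.1 h2
          have h4 : s₂ ξ = s₂ ξ₀ := by
            calc s₂ ξ = s₂ ξ * ((s₂ ξ₀)⁻¹ * s₂ ξ₀) := by rw [inv_mul_cancel₀ hu0, mul_one]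
              _ = (s₂ ξ * (s₂ ξ₀)⁻¹) * s₂ ξ₀ := by ring
              _ = s₂ ξ₀ := by rw [h3, one_mul]
          exact s₂.injective h4
    calc (n : ℂ) * A ξ₀ = ∑ ξ ∈ nthRootsFinset n (1 : L), A ξ * (if ξ = ξ₀ then (n : ℂ) else 0) := by
          rw [Finset.sum_eq_single ξ₀]
          · rw [if_pos rfl, mul_comm]
          · intro ξ _ hne
            rw [if_neg hne, mul_zero]
          · intro h0
            exact absurd hξ₀ h0
      _ = ∑ ξ ∈ nthRootsFinset n (1 : L), ∑ j ∈ Finset.range n,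
            A ξ * (s₂ ξ * (s₂ ξ₀)⁻¹) ^ j := by
          refine Finset.sum_congr rfl fun ξ hξ => ?_
          rw [← geo ξ hξ, Finset.mul_sum]
      _ = ∑ j ∈ Finset.range n, ∑ ξ ∈ nthRootsFinset n (1 : L),
            A ξ * (s₂ ξ * (s₂ ξ₀)⁻¹) ^ j := Finset.sum_comm
      _ = ∑ j ∈ Finset.range n, (∑ ξ ∈ nthRootsFinset n (1 : L), A ξ * s₂ ξ ^ j) *
            ((s₂ ξ₀)⁻¹) ^ j := by
          refine Finset.sum_congr rfl fun j _ => ?_
          rw [Finset.sum_mul]
          refine Finset.sum_congr rfl fun ξ _ => ?_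
          rw [mul_pow]
          ring
      _ = ∑ ξ ∈ nthRootsFinset n (1 : L), A ξ := by
          rw [Finset.sum_eq_single 0]
          · simp
          · intro j hj hj0
            rw [hA j (Nat.pos_of_ne_zero hj0) (Finset.mem_range.1 hj), zero_mul]
          · intro h0
            exact absurd (Finset.mem_range.2 hn) h0
  intro ξ hξ ξ' hξ'
  exact mul_left_cancel₀ hn0 ((key ξ hξ).trans (key ξ' hξ').symm)

end Pool.Agent.K9h21.RP
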