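import Pool.Agent.K9h21.RP.Stm
import Pool.Agent.K9h21.RP.Fou
import Pool.Agent.N76.RG.Fin5

set_option autoImplicit false

/-!
# Project RP: independence over `ℝ` of the regulators, the main argument
-/

namespace Pool.Agent.K9h21.RP

open Polynomial IntermediateField Module MeasureTheory Set
open Pool.Agent.N76.EC
open Pool.Agent.N76.RG (S_SPG)
open scoped Real

/-- evaluation of `(X + a)^n + w` -/
theorem ev_pow {R : Type*} [CommRing R] (n : ℕ) (a w y : R) : ((X + C a) ^ n + C w : R[X]).eval y = (y + a) ^ n + w := by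
  simp

/-- `n ^ n * w` is integral -/
theorem int_w {K : Type*} [Field K] (n : ℕ) (hn : 2 ≤ n) (a w : K)
    (hint : ∀ i, IsIntegral ℤ (((X + C a) ^ n + C w : K[X]).coeff i)) : IsIntegral ℤ ((n : K) ^ n * w) := by
  have hcn : ∀ m : ℕ, IsIntegral ℤ (m : K) := fun m => by
    have := isIntegral_algebraMap (R := ℤ) (A := K) (x := (m : ℤ))
    simpa using this
  have h1 : IsIntegral ℤ ((n : K) * a) := by
    have h2 := hint (n - 1)
    rw [coeff_add, coeff_X_add_C_pow, coeff_C_of_ne_zero (by omega), add_zero] at h2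
    have h3 : n - (n - 1) = 1 := by omega
    have h4 : n.choose (n - 1) = n := by
      have := Nat.choose_symm_of_eq_add (n := n) (a := n - 1) (b := 1) (by omega)
      rw [this, Nat.choose_one_right]
    rw [h3, pow_one, h4, mul_comm] at h2
    exact h2
  have h2 := hint 0
  rw [coeff_add, coeff_X_add_C_pow, coeff_C_zero, Nat.choose_zero_right, Nat.sub_zero, Nat.cast_one, mul_one] at h2
  have e : (n : K) ^ n * w = (n : K) ^ n * (a ^ n + w) - ((n : K) * a) ^ n := by
    rw [mul_pow]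
    ring
  rw [e]
  exact (((hcn n).pow n).mul h2).sub (h1.pow n)

/-- **The coefficients of a relation are constant on the fibres** (over fields with enough roots of unity). -/
theorem core_.{u, v} (hNPW : S_NPW.{u, v}) (hSPG : S_SPG.{u, v}) (hWIN : S_WIN) (hEMB : S_EMB.{v, v, v})
    (K : Type u) [Field K] [NumberField K] (n : ℕ) (hn : 2 ≤ n) (a w : K)
    (hint : ∀ i, IsIntegral ℤ (((X + C a) ^ n + C w : K[X]).coeff i)) (hw : w ^ 2 ≠ 4) (σ : K →+* ℂ)
    {η φ₀ ε : ℝ} {B : Fin n → ℂ → ℂ} {X' : Fin n → ℝ → ℂ}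
    (S : Sys (((X + C a) ^ n + C w : K[X]).map σ) n η φ₀ ε B X') (l : Fin n) :
    ∃ k₀ : ℕ, 3 ≤ k₀ ∧ ∀ (L : Type v) [Field L] [NumberField L] [Algebra K L] (N : ℕ) (ζ : L), 0 < N → n ∣ N →
      IsPrimitiveRoot ζ N → ∀ (m : ℕ) (b : Fin m → L) (k : Fin m → ℕ) (e : Fin m → L), Function.Injective b →
      (∀ i, k₀ ≤ k i ∧ k i ∣ N ∧ IsPrimitiveRoot (e i) (k i) ∧
        (b i + algebraMap K L a) ^ n + algebraMap K L w = e i + (e i)⁻¹) →
      (w = 0 → ∀ i j, e i + (e i)⁻¹ ≠ -(e j + (e j)⁻¹)) →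
      ∀ (A : Fin m → ℝ), (∀ s : Em L σ, ∑ i, A i * P (X' l) (Zp η) (s.1 (b i)) = 0) →
        (∀ i, (∃ T : Finset (Fin m), (∀ j, e j + (e j)⁻¹ = e i + (e i)⁻¹ → j ∈ T) ∧ T.card < n) → A i = 0) ∧
        ∀ i j, e i + (e i)⁻¹ = e j + (e j)⁻¹ → A i = A j := by
  classical
  have hn0 : 0 < n := by omega
  have hGmap : (((X + C a) ^ n + C w : K[X]).map σ) = (X + C (σ a)) ^ n + C (σ w) := by
    simp
  rw [hGmap] at S
  obtain ⟨α, δ, hδ, hwin, hne⟩ := hWIN S (σ a) (σ w) hn rfl l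
  obtain ⟨k₁, hN⟩ := hNPW K n w hn hw (int_w n hn a w hint)
  obtain ⟨k₂, hS⟩ := hSPG K α δ hδ
  refine ⟨max 3 (max k₁ k₂), le_max_left _ _, fun L _ _ _ N ζ hN0 hnN hζ m b k e hbinj hb hb0 A hA => ?_⟩
  have hk1 : ∀ i, k₁ ≤ k i := fun i => ((le_max_left _ _).trans (le_max_right _ _)).trans (hb i).1
  have hk3 : ∀ i, k₂ ≤ k i := fun i => ((le_max_right _ _).trans (le_max_right _ _)).trans (hb i).1
  have hnL : (n : L) ≠ 0 := Nat.cast_ne_zero.2 hn0.ne'
  set a' : L := algebraMap K L a with ha'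
  set w' : L := algebraMap K L w with hw'
  set x : Fin m → L := fun i => e i + (e i)⁻¹ with hx
  obtain ⟨⟨s₁, hs₁⟩⟩ := Em_nonempty L σ
  have hemem : ∀ j, e j ∈ K⟮ζ⟯ := by
    intro j
    have : NeZero N := ⟨hN0.ne'⟩
    have h1 : e j ^ N = 1 := by
      obtain ⟨q, hq⟩ := (hb j).2.1
      rw [hq, pow_mul, (hb j).2.2.1.pow_eq_one, one_pow]
    obtain ⟨t, -, ht⟩ := hζ.eq_pow_of_pow_eq_one h1
    rw [← ht]
    exact pow_mem (mem_adjoin_simple_self K ζ) t
  have hspec : ∀ j, x j ∈ K⟮ζ⟯ := fun j => add_mem (hemem j) (inv_mem (hemem j))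
  have hbx : ∀ i, (b i + a') ^ n = x i - w' := fun i => eq_sub_of_add_eq (hb i).2.2.2
  -- the differences
  have hd : ∀ i, ((n : L) * (b i + a')) ^ n = (n : L) ^ n * (e i + (e i)⁻¹ - w') := fun i => by
    rw [mul_pow, hbx]
  have hnpw := fun i i' => hN N hN0 L ζ hζ (k i) (k i') (e i) (e i') ((n : L) * (b i + a')) ((n : L) * (b i' + a'))
    (hk1 i) (hk1 i') (hb i).2.2.1 (hb i').2.2.1 (hd i) (hd i')
  have hrange : ∀ y : L, y ∈ (algebraMap K⟮ζ⟯ L).range ↔ y ∈ K⟮ζ⟯ := by
    intro y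
    constructor
    · rintro ⟨z, rfl⟩
      exact z.2
    · intro hy
      exact ⟨⟨y, hy⟩, rfl⟩
  have hnmem : ∀ q : ℕ, ((n : L)) ^ q ∈ K⟮ζ⟯ := fun q => pow_mem (_root_.natCast_mem K⟮ζ⟯ n) q
  have hne0 : ∀ i, b i + a' ≠ 0 := by
    intro i h
    refine (hnpw i i 1 1 one_pos (by omega) one_pos (by omega)).1 ?_
    rw [h, mul_zero, pow_one]
    exact zero_mem _
  -- the values
  set ι : Type v := {v : L // v ∈ Finset.univ.image x} with hι
  have hidx : ∀ v : ι, ∃ i, x i = v.1 := fun v => by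
    obtain ⟨i, -, hi⟩ := Finset.mem_image.1 v.2
    exact ⟨i, hi⟩
  choose c hc using hidx
  set y : ι → L := fun v => b (c v) + a' with hy
  have hyn : ∀ v : ι, y v ^ n = v.1 - w' := fun v => by
    rw [hy]
    simp only
    rw [hbx, hc]
  have hy0 : ∀ v, y v ≠ 0 := fun v => hne0 _
  set ω : L := ζ ^ (N / n) with hω
  have hωp : IsPrimitiveRoot ω n := hζ.pow hN0 (Nat.div_mul_cancel hnN).symm
  have hμ : ∀ ξ : L, ξ ∈ nthRootsFinset n (1 : L) ↔ ξ ^ n = 1 := fun ξ => mem_nthRootsFinset hn0 _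
  have hμk : ∀ ξ : L, ξ ^ n = 1 → ξ ∈ K⟮ζ⟯ := by
    intro ξ hξ
    have : NeZero n := ⟨hn0.ne'⟩
    obtain ⟨t, -, ht⟩ := hωp.eq_pow_of_pow_eq_one hξ
    rw [← ht, hω]
    exact pow_mem (pow_mem (mem_adjoin_simple_self K ζ) _) t
  -- the coefficient functions
  set Af : ι → L → ℂ := fun v ξ => ∑ i, if b i + a' = ξ * y v then (A i : ℂ) else 0 with hAf
  -- the main relation
  have hrel : ∀ s : L →+* ℂ, s.comp (algebraMap K L) = σ →
      ∑ v, ∑ ξ ∈ nthRootsFinset n (1 : L), Af v ξ * (P (X' l) (Zp η) (s ξ * s (y v) - σ a) : ℂ) = 0 := by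
    intro s hs
    have hsa : s a' = σ a := RingHom.congr_fun hs a
    have h1 : ∀ v ξ, Af v ξ * (P (X' l) (Zp η) (s ξ * s (y v) - σ a) : ℂ) =
        ∑ i, if b i + a' = ξ * y v then ((A i * P (X' l) (Zp η) (s (b i)) : ℝ) : ℂ) else 0 := by
      intro v ξ
      rw [hAf]
      simp only
      rw [Finset.sum_mul]
      refine Finset.sum_congr rfl fun i _ => ?_
      by_cases h : b i + a' = ξ * y v
      · rw [if_pos h, if_pos h]
        have h2 : s ξ * s (y v) - σ a = s (b i) := by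
          rw [← map_mul, ← h, map_add, hsa, add_sub_cancel_right]
        rw [h2]
        push_cast
        ring
      · rw [if_neg h, if_neg h, zero_mul]
    simp only [h1]
    have h2 : ∀ v : ι, ∑ ξ ∈ nthRootsFinset n (1 : L), ∑ i, (if b i + a' = ξ * y v then
        ((A i * P (X' l) (Zp η) (s (b i)) : ℝ) : ℂ) else 0) = ∑ i, ∑ ξ ∈ nthRootsFinset n (1 : L),
        (if b i + a' = ξ * y v then ((A i * P (X' l) (Zp η) (s (b i)) : ℝ) : ℂ) else 0) := fun v => Finset.sum_comm
    simp only [h2]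
    rw [Finset.sum_comm]
    have h3 : ∀ i, ∑ v : ι, ∑ ξ ∈ nthRootsFinset n (1 : L), (if b i + a' = ξ * y v then
        ((A i * P (X' l) (Zp η) (s (b i)) : ℝ) : ℂ) else 0) = ((A i * P (X' l) (Zp η) (s (b i)) : ℝ) : ℂ) := by
      intro i
      rw [Finset.sum_eq_single (⟨x i, Finset.mem_image_of_mem x (Finset.mem_univ i)⟩ : ι)]
      · rw [Finset.sum_eq_single ((b i + a') / y ⟨x i, Finset.mem_image_of_mem x (Finset.mem_univ i)⟩)]
        · rw [if_pos]
          rw [div_mul_cancel₀ _ (hy0 _)]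
        · intro ξ _ hξ
          rw [if_neg]
          intro h
          apply hξ
          rw [h, mul_div_cancel_right₀ _ (hy0 _)]
        · intro h
          exfalso
          apply h
          rw [hμ, div_pow, hyn, hbx, div_self]
          rw [← hbx]
          exact pow_ne_zero _ (hne0 i)
      · intro v _ hv
        refine Finset.sum_eq_zero fun ξ hξ => ?_
        rw [if_neg]
        intro h
        apply hv
        apply Subtype.ext
        have h4 : (b i + a') ^ n = y v ^ n := by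
          rw [h, mul_pow, (hμ ξ).1 hξ, one_mul]
        rw [hbx, hyn] at h4
        exact (sub_left_injective h4).symm
      · intro h
        exact absurd (Finset.mem_univ _) h
    rw [Finset.sum_congr rfl fun i _ => h3 i, ← Complex.ofReal_sum, hA ⟨s, hs⟩, Complex.ofReal_zero]
  -- the Fourier coefficients
  have hconst : ∀ v : ι, ∀ ξ ∈ nthRootsFinset n (1 : L), ∀ ξ' ∈ nthRootsFinset n (1 : L), Af v ξ = Af v ξ' := by
    intro v
    obtain ⟨s₂, β, hs₂, hβ, hs₂x⟩ := hS (k (c v)) (hk3 _) L s₁ (e (c v)) (hb _).2.2.1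
    rw [hs₁] at hs₂
    have hs₂v : s₂ v.1 = 2 * Complex.cos β := by
      rw [← hs₂x, ← hc v]
    have hs₂w : s₂ w' = σ w := RingHom.congr_fun hs₂ w
    have hyβ : s₂ (y v) ^ n = 2 * Complex.cos β - σ w := by
      rw [← map_pow, hyn, map_sub, hs₂v, hs₂w]
    refine fou L s₂ n ω hn0 hωp (Af v) fun j hj hjn => ?_
    refine hEMB K⟮ζ⟯ L s₂ n ω ι y hn0 hωp ((hrange _).2 (hμk _ hωp.pow_eq_one)) (fun v => ?_) (fun v j hj hjn => ?_)
      (fun v v' j j' hvv hj hjn hj' hjn' => ?_) Af (fun z => (P (X' l) (Zp η) (z - σ a) : ℂ)) (fun s hs => ?_) v j hj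
      hjn (hne β hβ (s₂ (y v)) hyβ j hj hjn)
    · rw [hrange, hyn, ← hc v]
      exact sub_mem (hspec _) (K⟮ζ⟯.algebraMap_mem w)
    · rw [hrange]
      intro h
      refine (hnpw (c v) (c v) j 1 hj hjn one_pos (by omega)).1 ?_
      rw [mul_pow]
      exact mul_mem (hnmem j) h
    · rw [hrange]
      intro h
      have h5 : x (c v) ≠ x (c v') := by
        rw [hc, hc]
        exact fun h => hvv (Subtype.ext h)
      refine (hnpw (c v) (c v') j j' hj hjn hj' hjn').2 (fun h6 => h5 h6.symm) (fun h0 => hb0 h0 (c v') (c v)) ?_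
      rw [mul_pow, mul_pow]
      have e1 : (n : L) ^ j * (b (c v) + a') ^ j * ((n : L) ^ j' * (b (c v') + a') ^ j') =
          (n : L) ^ j * (n : L) ^ j' * (y v ^ j * y v' ^ j') := by
        rw [hy]
        ring
      rw [e1]
      exact mul_mem (mul_mem (hnmem j) (hnmem j')) h
    · refine hrel s ?_
      rw [← hs₂, IsScalarTower.algebraMap_eq K K⟮ζ⟯ L, ← RingHom.comp_assoc, ← RingHom.comp_assoc, hs]
  -- the value of the coefficient function
  have hval : ∀ i, Af ⟨x i, Finset.mem_image_of_mem x (Finset.mem_univ i)⟩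
      ((b i + a') / y ⟨x i, Finset.mem_image_of_mem x (Finset.mem_univ i)⟩) = A i := by
    intro i
    rw [hAf]
    simp only
    rw [Finset.sum_eq_single i]
    · rw [if_pos]
      rw [div_mul_cancel₀ _ (hy0 _)]
    · intro j _ hj
      rw [if_neg]
      intro h
      apply hj
      rw [div_mul_cancel₀ _ (hy0 _)] at h
      exact hbinj (add_right_cancel h)
    · intro h
      exact absurd (Finset.mem_univ _) h
  have hmem : ∀ i (v : ι), x i = v.1 → (b i + a') / y v ∈ nthRootsFinset n (1 : L) := by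
    intro i v hv
    rw [hμ, div_pow, hyn, hbx, hv, div_self]
    rw [← hv, ← hbx]
    exact pow_ne_zero _ (hne0 i)
  refine ⟨fun i hT => ?_, fun i j hij => ?_⟩
  · obtain ⟨T, hT, hTc⟩ := hT
    set v : ι := ⟨x i, Finset.mem_image_of_mem x (Finset.mem_univ i)⟩ with hv
    have h1 : ∃ ξ ∈ nthRootsFinset n (1 : L), ξ ∉ T.image fun j => (b j + a') / y v := by
      by_contra hcon
      push Not at hcon
      have h2 : (nthRootsFinset n (1 : L)).card ≤ (T.image fun j => (b j + a') / y v).card :=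
        Finset.card_le_card hcon
      rw [hωp.card_nthRootsFinset] at h2
      have h3 := Finset.card_image_le (s := T) (f := fun j => (b j + a') / y v)
      omega
    obtain ⟨ξ, hξ, hξT⟩ := h1
    have h2 : Af v ξ = 0 := by
      rw [hAf]
      refine Finset.sum_eq_zero fun j _ => ?_
      rw [if_neg]
      intro h
      apply hξT
      have h3 : (b j + a') / y v = ξ := by rw [h, mul_div_cancel_right₀ _ (hy0 _)]
      have h4 : x j = x i := by
        have h5 : (b j + a') ^ n = y v ^ n := by rw [h, mul_pow, (hμ ξ).1 hξ, one_mul]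
        rw [hbx, hyn] at h5
        exact sub_left_injective h5
      exact Finset.mem_image.2 ⟨j, hT j h4, h3⟩
    have h3 := hval i
    rw [hconst v _ (hmem i v rfl) ξ hξ, h2] at h3
    exact_mod_cast h3.symm
  · have h1 := hval i
    have h2 := hval j
    have hvv : (⟨x i, Finset.mem_image_of_mem x (Finset.mem_univ i)⟩ : ι) =
        ⟨x j, Finset.mem_image_of_mem x (Finset.mem_univ j)⟩ := Subtype.ext hij
    rw [← hvv] at h2
    rw [hconst _ _ (hmem i _ rfl) _ (hmem j ⟨x i, Finset.mem_image_of_mem x (Finset.mem_univ i)⟩ hij.symm), h2] at h1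
    exact_mod_cast h1.symm

end Pool.Agent.K9h21.RP
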