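import Pool.Agent.K9h21.RP.StmE

/-!
# The characters of order dividing `n` of `n`-th roots are linearly independent on the embeddings

Proof of `S_EMB` (leaf EMB, helper24).
-/

set_option autoImplicit false

namespace Pool.Agent.K9h21.RP

open Polynomial

/-- inversion of the finite Fourier transform on the `n`-th roots of unity -/
private theorem fourier_inv (n : ℕ) (hn : 0 < n) (h : ℂ → ℂ) (u : ℂ)
    (hu : u ∈ nthRootsFinset n (1 : ℂ)) :
    ∑ j ∈ Finset.range n, ((n : ℂ)⁻¹ * ∑ v ∈ nthRootsFinset n (1 : ℂ), h v * (v⁻¹) ^ j) * u ^ j =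
      h u := by
  classical
  have hn0 : (n : ℂ) ≠ 0 := Nat.cast_ne_zero.2 hn.ne'
  have hu1 : u ^ n = 1 := (mem_nthRootsFinset hn _).1 hu
  have hu0 : u ≠ 0 := fun h0 => by rw [h0, zero_pow hn.ne'] at hu1; exact zero_ne_one hu1
  have key : ∀ v ∈ nthRootsFinset n (1 : ℂ), ∑ j ∈ Finset.range n, (v⁻¹) ^ j * u ^ j =
      if v = u then (n : ℂ) else 0 := by
    intro v hv
    have hv1 : v ^ n = 1 := (mem_nthRootsFinset hn _).1 hv
    have hv0 : v ≠ 0 := fun h0 => by rw [h0, zero_pow hn.ne'] at hv1; exact zero_ne_one hv1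
    have e : ∀ j ∈ Finset.range n, (v⁻¹) ^ j * u ^ j = (v⁻¹ * u) ^ j := fun j _ => by rw [mul_pow]
    rw [Finset.sum_congr rfl e]
    split_ifs with hvu
    · rw [hvu, inv_mul_cancel₀ hu0]
      simp
    · have h1 := geom_sum_mul (v⁻¹ * u) n
      rw [mul_pow, inv_pow, hv1, hu1, inv_one, one_mul, sub_self, mul_eq_zero] at h1
      rcases h1 with h1 | h1
      · exact h1
      · exfalso
        apply hvu
        have h2 : v⁻¹ * u = 1 := sub_eq_zero.1 h1
        field_simp at h2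
        exact h2.symm
  calc ∑ j ∈ Finset.range n, ((n : ℂ)⁻¹ * ∑ v ∈ nthRootsFinset n (1 : ℂ), h v * (v⁻¹) ^ j) * u ^ j
      = ∑ j ∈ Finset.range n, ∑ v ∈ nthRootsFinset n (1 : ℂ),
          (n : ℂ)⁻¹ * h v * ((v⁻¹) ^ j * u ^ j) := by
        refine Finset.sum_congr rfl fun j _ => ?_
        rw [Finset.mul_sum, Finset.sum_mul]
        refine Finset.sum_congr rfl fun v _ => ?_
        ring
    _ = ∑ v ∈ nthRootsFinset n (1 : ℂ), ∑ j ∈ Finset.range n,
          (n : ℂ)⁻¹ * h v * ((v⁻¹) ^ j * u ^ j) := Finset.sum_comm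
    _ = ∑ v ∈ nthRootsFinset n (1 : ℂ), (n : ℂ)⁻¹ * h v * (if v = u then (n : ℂ) else 0) := by
        refine Finset.sum_congr rfl fun v hv => ?_
        rw [← Finset.mul_sum, key v hv]
    _ = h u := by
        rw [Finset.sum_eq_single u]
        · rw [if_pos rfl]
          field_simp
        · intro v _ hvu
          rw [if_neg hvu, mul_zero]
        · intro h0
          exact absurd hu h0

/-- abstract form: a group `G` with characters of order dividing `n` -/
private theorem emb_core.{w} {G : Type*} [Group G] (ι : Type w) [Fintype ι] (n : ℕ)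
    (χ : ι → (G →* ℂ)) (hn : ∀ i, χ i ^ n = 1)
    (h1 : ∀ i (j : ℕ), 0 < j → j < n → χ i ^ j ≠ 1)
    (h2 : ∀ i i' (j j' : ℕ), i ≠ i' → 0 < j → j < n → 0 < j' → j' < n → χ i ^ j * χ i' ^ j' ≠ 1)
    (c : ι → ℕ → ℂ) (h : ∀ g : G, ∑ i, ∑ j ∈ Finset.range n, c i j * χ i g ^ j = 0) :
    ∀ i (j : ℕ), 0 < j → j < n → c i j = 0 := by
  classical
  intro i₀ j₀ hj₀ hj₀n
  have hli := linearIndependent_monoidHom G ℂ
  let J := {j : Fin n // (j : ℕ) ≠ 0}
  let F : Option (ι × J) → (G →* ℂ) := fun o => o.elim 1 fun p => χ p.1 ^ (p.2.1 : ℕ)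
  have hpow : ∀ (i : ι) (a b : ℕ), a < b → b < n → χ i ^ a = χ i ^ b → False := by
    intro i a b hab hbn he
    refine h1 i (b - a) (by omega) (by omega) ?_
    have hunit : χ i ^ a * χ i ^ (n - a) = 1 := by
      rw [← pow_add, Nat.add_sub_cancel' (by omega), hn]
    calc χ i ^ (b - a) = χ i ^ (b - a) * (χ i ^ a * χ i ^ (n - a)) := by rw [hunit, mul_one]
      _ = χ i ^ (b - a + a) * χ i ^ (n - a) := by rw [← mul_assoc, ← pow_add]
      _ = χ i ^ a * χ i ^ (n - a) := by rw [Nat.sub_add_cancel hab.le, he]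
      _ = 1 := hunit
  have hF : Function.Injective F := by
    intro x y hxy
    cases x with
    | none =>
      cases y with
      | none => rfl
      | some q => exact absurd hxy.symm (h1 q.1 q.2.1 (Nat.pos_of_ne_zero q.2.2) q.2.1.2)
    | some p =>
      cases y with
      | none => exact absurd hxy (h1 p.1 p.2.1 (Nat.pos_of_ne_zero p.2.2) p.2.1.2)
      | some q =>
        obtain ⟨i, j⟩ := p
        obtain ⟨i', j'⟩ := q
        have he : χ i ^ (j.1 : ℕ) = χ i' ^ (j'.1 : ℕ) := hxy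
        by_cases hii : i = i'
        · subst hii
          rcases lt_trichotomy (j.1 : ℕ) (j'.1 : ℕ) with hlt | heq | hgt
          · exact (hpow i _ _ hlt j'.1.2 he).elim
          · have : j = j' := Subtype.ext (Fin.ext heq)
            rw [this]
          · exact (hpow i _ _ hgt j.1.2 he.symm).elim
        · exfalso
          refine h2 i i' j.1 (n - j'.1) hii (Nat.pos_of_ne_zero j.2) j.1.2 ?_ ?_ ?_
          · have := j'.1.2
            omega
          · have := Nat.pos_of_ne_zero j'.2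
            have := j'.1.2
            omega
          · rw [he, ← pow_add, Nat.add_sub_cancel' j'.1.2.le, hn]
  have hl2 := hli.comp F hF
  rw [Fintype.linearIndependent_iff] at hl2
  let cc : Option (ι × J) → ℂ := fun o => o.elim (∑ i, c i 0) (fun p => c p.1 p.2.1)
  have hc := hl2 cc (by
    funext g
    have hg := h g
    rw [Finset.sum_apply, Fintype.sum_option]
    simp only [Pi.smul_apply, Function.comp_apply, smul_eq_mul, cc, F, Option.elim_none,
      Option.elim_some, MonoidHom.one_apply, Pi.zero_apply, MonoidHom.pow_apply]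
    rw [← hg, mul_one, Fintype.sum_prod_type, ← Finset.sum_add_distrib]
    refine Finset.sum_congr rfl fun i _ => ?_
    rw [Finset.sum_range (fun j => c i j * χ i g ^ j)]
    have hn0 : 0 < n := by omega
    rw [← Finset.add_sum_erase Finset.univ (fun j : Fin n => c i j * χ i g ^ (j : ℕ))
      (Finset.mem_univ (⟨0, hn0⟩ : Fin n))]
    simp only [pow_zero, mul_one]
    congr 1
    refine Finset.sum_bij (fun (j : J) _ => j.1) ?_ ?_ ?_ ?_
    · intro j _
      rw [Finset.mem_erase]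
      exact ⟨fun hj => j.2 (by rw [hj]), Finset.mem_univ _⟩
    · intro a _ b _ hab
      exact Subtype.ext hab
    · intro b hb
      refine ⟨⟨b, fun hb0 => ?_⟩, Finset.mem_univ _, rfl⟩
      rw [Finset.mem_erase] at hb
      exact hb.1 (Fin.ext hb0)
    · intro j _
      rfl)
  exact hc (some (i₀, ⟨⟨j₀, hj₀n⟩, hj₀.ne'⟩))

theorem emb.{u, v, w} : S_EMB.{u, v, w} := by
  intro k L _ _ _ _ _ s₂ n ω ι _ y hn hω hωk hyn hyj hyy A f hrel i₀ j₀ hj₀ hj₀n hne
  classical
  have : CharZero L := charZero_of_injective_algebraMap (algebraMap k L).injective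
  have : CharZero (AlgebraicClosure L) :=
    charZero_of_injective_algebraMap (algebraMap L (AlgebraicClosure L)).injective
  have : Algebra.IsAlgebraic k (AlgebraicClosure L) := Algebra.IsAlgebraic.trans k L (AlgebraicClosure L)
  have : IsAlgClosure k (AlgebraicClosure L) := ⟨inferInstance, inferInstance⟩
  have : IsGalois k (AlgebraicClosure L) := inferInstance
  let _ : Algebra L ℂ := s₂.toAlgebra
  let S : AlgebraicClosure L →ₐ[L] ℂ := IsAlgClosed.lift
  have hS : ∀ x : L, S (algebraMap L (AlgebraicClosure L) x) = s₂ x := fun x => S.commutes x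
  have hinj : Function.Injective (algebraMap L (AlgebraicClosure L)) :=
    (algebraMap L (AlgebraicClosure L)).injective
  have hSinj : Function.Injective S := (S : AlgebraicClosure L →+* ℂ).injective
  have hn1 : 1 < n := by omega
  have htower : ∀ x : k, algebraMap k (AlgebraicClosure L) x
      = algebraMap L (AlgebraicClosure L) (algebraMap k L x) := fun x =>
    IsScalarTower.algebraMap_apply k L (AlgebraicClosure L) x
  have hfix : ∀ x : L, (∀ g : AlgebraicClosure L ≃ₐ[k] AlgebraicClosure L,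
      g (algebraMap L (AlgebraicClosure L) x) = algebraMap L (AlgebraicClosure L) x) →
      x ∈ (algebraMap k L).range := by
    intro x hx
    have h1 := (InfiniteGalois.mem_range_algebraMap_iff_fixed (k := k)
      (algebraMap L (AlgebraicClosure L) x)).2 hx
    obtain ⟨c, hc⟩ := h1
    exact ⟨c, hinj (by rw [← htower]; exact hc)⟩
  have hfixk : ∀ (g : AlgebraicClosure L ≃ₐ[k] AlgebraicClosure L) (x : L),
      x ∈ (algebraMap k L).range →
      g (algebraMap L (AlgebraicClosure L) x) = algebraMap L (AlgebraicClosure L) x := by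
    rintro g x ⟨c, rfl⟩
    rw [← htower, AlgEquiv.commutes]
  let Y : ι → AlgebraicClosure L := fun i => algebraMap L (AlgebraicClosure L) (y i)
  have hy0 : ∀ i, y i ≠ 0 := fun i h => hyj i 1 one_pos hn1 (by
    rw [h, pow_one]
    exact Subring.zero_mem _)
  have hY0 : ∀ i, Y i ≠ 0 := fun i h => hy0 i (hinj (by rw [map_zero]; exact h))
  -- the roots of unity of the algebraic closure are those of `k`
  let Ω : AlgebraicClosure L := algebraMap L (AlgebraicClosure L) ω
  have hΩ : IsPrimitiveRoot Ω n := hω.map_of_injective hinj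
  have hroot : ∀ (x : AlgebraicClosure L), x ^ n = 1 →
      ∀ g : AlgebraicClosure L ≃ₐ[k] AlgebraicClosure L, g x = x := by
    intro x hx g
    have : NeZero n := ⟨hn.ne'⟩
    obtain ⟨m, -, hm⟩ := hΩ.eq_pow_of_pow_eq_one hx
    rw [← hm, map_pow]
    congr 1
    exact hfixk g ω hωk
  let r : ι → (AlgebraicClosure L ≃ₐ[k] AlgebraicClosure L) → AlgebraicClosure L := fun i g =>
    g (Y i) / Y i
  have hr : ∀ i g, g (Y i) = r i g * Y i := fun i g => (div_mul_cancel₀ _ (hY0 i)).symm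
  have hrn : ∀ i g, r i g ^ n = 1 := by
    intro i g
    have h1 : g (Y i ^ n) = Y i ^ n := by
      have := hfixk g (y i ^ n) (hyn i)
      rw [map_pow] at this
      exact this
    change (g (Y i) / Y i) ^ n = 1
    rw [div_pow, ← map_pow, h1, div_self (pow_ne_zero _ (hY0 i))]
  have hrm : ∀ i g h, r i (g * h) = r i g * r i h := by
    intro i g h
    have h1 : (g * h) (Y i) = g (h (Y i)) := rfl
    change (g * h) (Y i) / Y i = r i g * r i h
    rw [h1, hr i h, map_mul, hroot (r i h) (hrn i h) g, hr i g]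
    field_simp [hY0 i]
  let χ : ι → ((AlgebraicClosure L ≃ₐ[k] AlgebraicClosure L) →* ℂ) := fun i =>
    { toFun := fun g => S (r i g)
      map_one' := by
        have : r i 1 = 1 := div_self (hY0 i)
        rw [this, map_one]
      map_mul' := fun g h => by rw [hrm, map_mul] }
  have hχ : ∀ i g, χ i g = S (r i g) := fun i g => rfl
  have hχn : ∀ i, χ i ^ n = 1 := by
    intro i
    ext g
    rw [MonoidHom.pow_apply, hχ, ← map_pow, hrn, map_one, MonoidHom.one_apply]
  have hχ1 : ∀ i (j : ℕ), 0 < j → j < n → χ i ^ j ≠ 1 := by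
    intro i j hj hjn h1
    refine hyj i j hj hjn (hfix _ fun g => ?_)
    have h2 := DFunLike.congr_fun h1 g
    rw [MonoidHom.pow_apply, hχ, ← map_pow, MonoidHom.one_apply] at h2
    have h3 : r i g ^ j = 1 := hSinj (by rw [h2, map_one])
    rw [map_pow, map_pow]
    change g (Y i) ^ j = Y i ^ j
    rw [hr i g, mul_pow, h3, one_mul]
  have hχ2 : ∀ i i' (j j' : ℕ), i ≠ i' → 0 < j → j < n → 0 < j' → j' < n →
      χ i ^ j * χ i' ^ j' ≠ 1 := by
    intro i i' j j' hii hj hjn hj' hjn' h1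
    refine hyy i i' j j' hii hj hjn hj' hjn' (hfix _ fun g => ?_)
    have h2 := DFunLike.congr_fun h1 g
    rw [MonoidHom.mul_apply, MonoidHom.pow_apply, MonoidHom.pow_apply, hχ, hχ, ← map_pow,
      ← map_pow, ← map_mul, MonoidHom.one_apply] at h2
    have h3 : r i g ^ j * r i' g ^ j' = 1 := hSinj (by rw [h2, map_one])
    rw [map_mul, map_pow, map_pow, map_mul, map_pow, map_pow]
    change g (Y i) ^ j * g (Y i') ^ j' = Y i ^ j * Y i' ^ j'
    rw [hr i g, hr i' g, mul_pow, mul_pow]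
    calc r i g ^ j * Y i ^ j * (r i' g ^ j' * Y i' ^ j')
        = (r i g ^ j * r i' g ^ j') * (Y i ^ j * Y i' ^ j') := by ring
      _ = Y i ^ j * Y i' ^ j' := by rw [h3, one_mul]
  -- the embeddings
  let sg : (AlgebraicClosure L ≃ₐ[k] AlgebraicClosure L) → (L →+* ℂ) := fun g =>
    (S : AlgebraicClosure L →+* ℂ).comp ((g : AlgebraicClosure L →+* AlgebraicClosure L).comp
      (algebraMap L (AlgebraicClosure L)))
  have hsgk : ∀ g, (sg g).comp (algebraMap k L) = s₂.comp (algebraMap k L) := by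
    intro g
    ext x
    change S (g (algebraMap L (AlgebraicClosure L) (algebraMap k L x))) = s₂ (algebraMap k L x)
    rw [← htower, AlgEquiv.commutes, htower, hS]
  have hsgy : ∀ g i, sg g (y i) = χ i g * s₂ (y i) := by
    intro g i
    change S (g (Y i)) = χ i g * s₂ (y i)
    rw [hr i g, map_mul, hχ]
    congr 1
    exact hS _
  have hsgξ : ∀ g, ∀ ξ ∈ nthRootsFinset n (1 : L), sg g ξ = s₂ ξ := by
    intro g ξ hξ
    have h1 : ξ ^ n = 1 := (mem_nthRootsFinset hn _).1 hξ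
    change S (g (algebraMap L (AlgebraicClosure L) ξ)) = s₂ ξ
    rw [hroot _ (by rw [← map_pow, h1, map_one]) g, hS]
  let H : ι → ℂ → ℂ := fun i u => ∑ ξ ∈ nthRootsFinset n (1 : L), A i ξ * f (s₂ ξ * (u * s₂ (y i)))
  have hχmem : ∀ i g, χ i g ∈ nthRootsFinset n (1 : ℂ) := by
    intro i g
    rw [mem_nthRootsFinset hn, hχ, ← map_pow, hrn, map_one]
  have hsum : ∀ g, ∑ i, H i (χ i g) = 0 := by
    intro g
    rw [← hrel (sg g) (hsgk g)]
    refine Finset.sum_congr rfl fun i _ => Finset.sum_congr rfl fun ξ hξ => ?_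
    rw [hsgξ g ξ hξ, hsgy]
  let c : ι → ℕ → ℂ := fun i j =>
    (n : ℂ)⁻¹ * ∑ v ∈ nthRootsFinset n (1 : ℂ), H i v * (v⁻¹) ^ j
  have hc := emb_core ι n χ hχn hχ1 hχ2 c (fun g => by
    rw [← hsum g]
    refine Finset.sum_congr rfl fun i _ => ?_
    exact fourier_inv n hn (H i) (χ i g) (hχmem i g)) i₀ j₀ hj₀ hj₀n
  have hn0 : (n : ℂ) ≠ 0 := Nat.cast_ne_zero.2 hn.ne'
  have hc2 : ∑ v ∈ nthRootsFinset n (1 : ℂ), H i₀ v * (v⁻¹) ^ j₀ = 0 := by
    rcases mul_eq_zero.1 hc with h1 | h1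
    · exact absurd h1 (inv_ne_zero hn0)
    · exact h1
  -- factorisation
  have hfac : ∑ v ∈ nthRootsFinset n (1 : ℂ), H i₀ v * (v⁻¹) ^ j₀ =
      (∑ ξ ∈ nthRootsFinset n (1 : L), A i₀ ξ * s₂ ξ ^ j₀) *
        (∑ u ∈ nthRootsFinset n (1 : ℂ), f (u * s₂ (y i₀)) * (u⁻¹) ^ j₀) := by
    have e1 : ∑ v ∈ nthRootsFinset n (1 : ℂ), H i₀ v * (v⁻¹) ^ j₀ =
        ∑ ξ ∈ nthRootsFinset n (1 : L), ∑ v ∈ nthRootsFinset n (1 : ℂ),
          A i₀ ξ * f (s₂ ξ * (v * s₂ (y i₀))) * (v⁻¹) ^ j₀ := by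
      rw [Finset.sum_comm]
      refine Finset.sum_congr rfl fun v _ => ?_
      rw [Finset.sum_mul]
    rw [e1, Finset.sum_mul]
    refine Finset.sum_congr rfl fun ξ hξ => ?_
    have hξ1 : ξ ^ n = 1 := (mem_nthRootsFinset hn _).1 hξ
    have hs1 : s₂ ξ ^ n = 1 := by rw [← map_pow, hξ1, map_one]
    have hs0 : s₂ ξ ≠ 0 := fun h0 => by
      rw [h0, zero_pow hn.ne'] at hs1
      exact zero_ne_one hs1
    rw [Finset.mul_sum]
    refine Finset.sum_bij' (fun v _ => s₂ ξ * v) (fun u _ => (s₂ ξ)⁻¹ * u) ?_ ?_ ?_ ?_ ?_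
    · intro v hv
      rw [mem_nthRootsFinset hn] at hv ⊢
      rw [mul_pow, hs1, hv, one_mul]
    · intro u hu
      rw [mem_nthRootsFinset hn] at hu ⊢
      rw [mul_pow, inv_pow, hs1, hu, inv_one, one_mul]
    · intro v _
      rw [← mul_assoc, inv_mul_cancel₀ hs0, one_mul]
    · intro u _
      rw [← mul_assoc, mul_inv_cancel₀ hs0, one_mul]
    · intro v hv
      have hv1 : v ^ n = 1 := (mem_nthRootsFinset hn _).1 hv
      have hv0 : v ≠ 0 := fun h0 => by
        rw [h0, zero_pow hn.ne'] at hv1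
        exact zero_ne_one hv1
      rw [mul_inv, mul_pow]
      have h3 : s₂ ξ ^ j₀ * ((s₂ ξ)⁻¹) ^ j₀ = 1 := by
        rw [← mul_pow, mul_inv_cancel₀ hs0, one_pow]
      have h4 : s₂ ξ * v * s₂ (y i₀) = s₂ ξ * (v * s₂ (y i₀)) := by ring
      rw [h4]
      calc A i₀ ξ * f (s₂ ξ * (v * s₂ (y i₀))) * (v⁻¹) ^ j₀
          = A i₀ ξ * f (s₂ ξ * (v * s₂ (y i₀))) * (v⁻¹) ^ j₀ *
              (s₂ ξ ^ j₀ * ((s₂ ξ)⁻¹) ^ j₀) := by rw [h3, mul_one]
        _ = A i₀ ξ * s₂ ξ ^ j₀ *
              (f (s₂ ξ * (v * s₂ (y i₀))) * (((s₂ ξ)⁻¹) ^ j₀ * (v⁻¹) ^ j₀)) := by ring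
  rw [hfac] at hc2
  rcases mul_eq_zero.1 hc2 with h1 | h1
  · exact h1
  · exact absurd h1 hne

end Pool.Agent.K9h21.RP
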