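import Pool.Agent.K9h21.RP.Core
import Pool.Agent.N76.RG.Fin6

set_option autoImplicit false

/-!
# Project RP: independence over `ℝ` of the regulators: descent and loops
-/

namespace Pool.Agent.K9h21.RP

open Polynomial IntermediateField Module MeasureTheory Set
open Pool.Agent.TH826.MK (KQ Torus symb)
open Pool.Agent.TH826.HD (PRing POpen pent toP pcst pDel)
open Pool.Agent.N76.EC
open Pool.Agent.N76.RG (S_SPG S_DET exact_angle special_angle angle_special nsq_ext exists_loop')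
open scoped Real

/-- **The coefficients of a relation are constant on the fibres.** -/
theorem indep_.{u, v} (hNPW : S_NPW.{u, v}) (hSPG : S_SPG.{u, v}) (hWIN : S_WIN) (hEMB : S_EMB.{v, v, v})
    (K : Type u) [Field K] [NumberField K] (n : ℕ) (hn : 2 ≤ n) (a w : K)
    (hint : ∀ i, IsIntegral ℤ (((X + C a) ^ n + C w : K[X]).coeff i)) (hw : w ^ 2 ≠ 4) (σ : K →+* ℂ)
    {η φ₀ ε : ℝ} {B : Fin n → ℂ → ℂ} {X' : Fin n → ℝ → ℂ}
    (S : Sys (((X + C a) ^ n + C w : K[X]).map σ) n η φ₀ ε B X') (l : Fin n) :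
    ∃ k₀ : ℕ, 3 ≤ k₀ ∧ ∀ (L : Type v) [Field L] [NumberField L] [Algebra K L] (m : ℕ) (b : Fin m → L)
      (k : Fin m → ℕ), Function.Injective b →
      (∀ i, k₀ ≤ k i ∧ (Chebyshev.C L (k i)).eval
        ((((X + C a) ^ n + C w : K[X]).map (algebraMap K L)).eval (b i)) = 2 ∧
        ∀ q : ℕ, 0 < q → q < k i → (Chebyshev.C L q).eval
          ((((X + C a) ^ n + C w : K[X]).map (algebraMap K L)).eval (b i)) ≠ 2) →
      (w = 0 → ∀ i j, (((X + C a) ^ n + C w : K[X]).map (algebraMap K L)).eval (b i) ≠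
        -(((X + C a) ^ n + C w : K[X]).map (algebraMap K L)).eval (b j)) →
      ∀ (A : Fin m → ℝ), (∀ s : Em L σ, ∑ i, A i * P (X' l) (Zp η) (s.1 (b i)) = 0) →
        (∀ i, (∃ T : Finset (Fin m), (∀ j, (((X + C a) ^ n + C w : K[X]).map (algebraMap K L)).eval (b j) =
          (((X + C a) ^ n + C w : K[X]).map (algebraMap K L)).eval (b i) → j ∈ T) ∧ T.card < n) → A i = 0) ∧
        ∀ i j, (((X + C a) ^ n + C w : K[X]).map (algebraMap K L)).eval (b i) =
          (((X + C a) ^ n + C w : K[X]).map (algebraMap K L)).eval (b j) → A i = A j := by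
  classical
  obtain ⟨k₀, hk₀, hmain⟩ := core_ hNPW hSPG hWIN hEMB K n hn a w hint hw σ S l
  refine ⟨k₀, hk₀, fun L _ _ _ m b k hbinj hb hb0 A hA => ?_⟩
  have hk0 : ∀ i, 0 < k i := fun i => by
    have := (hb i).1
    omega
  have hn0 : 0 < n := by omega
  obtain ⟨⟨s₁, hs₁⟩⟩ := Em_nonempty L σ
  set N : ℕ := n * ∏ i, k i with hN
  have hN0 : 0 < N := Nat.mul_pos hn0 (Finset.prod_pos fun i _ => hk0 i)
  have hkN : ∀ i, k i ∣ N := fun i => (Finset.dvd_prod_of_mem k (Finset.mem_univ i)).mul_left _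
  obtain ⟨E, iF, iN, ι, T, ζ, hT, hζ⟩ := nsq_ext L s₁ N hN0.ne'
  let _ : Algebra K E := (ι.comp (algebraMap K L)).toAlgebra
  have hKE : ∀ y : K, algebraMap K E y = ι (algebraMap K L y) := fun y => rfl
  have hζp : IsPrimitiveRoot ζ N := by
    refine IsPrimitiveRoot.of_map_of_injective (f := T) ?_ T.injective
    rw [hζ]
    exact Complex.isPrimitiveRoot_exp N hN0.ne'
  have hev : ∀ y : L, (((X + C a) ^ n + C w : K[X]).map (algebraMap K L)).eval y =
      (y + algebraMap K L a) ^ n + algebraMap K L w := fun y => by simp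
  -- the roots of unity
  choose u hu1 hu2 using fun i => exact_angle s₁ (hk0 i) (hb i).2.1 (hb i).2.2
  have hTe : ∀ i, T (ζ ^ (u i * (N / k i))) = Complex.exp ((2 * π * u i / (k i : ℂ)) * Complex.I) := by
    intro i
    rw [map_pow, hζ, ← Complex.exp_nat_mul]
    congr 1
    obtain ⟨q, hq⟩ := hkN i
    have hq0 : 0 < q := by
      rcases Nat.eq_zero_or_pos q with h | h
      · rw [h, mul_zero] at hq
        omega
      · exact h
    rw [hq, Nat.mul_div_cancel_left _ (hk0 i)]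
    have h1 : (k i : ℂ) ≠ 0 := Nat.cast_ne_zero.2 (hk0 i).ne'
    have h2 : (q : ℂ) ≠ 0 := Nat.cast_ne_zero.2 hq0.ne'
    push_cast
    field_simp
  have hprim : ∀ i, IsPrimitiveRoot (ζ ^ (u i * (N / k i))) (k i) := by
    intro i
    obtain ⟨q, hq⟩ := hkN i
    have hq0 : 0 < q := by
      rcases Nat.eq_zero_or_pos q with h | h
      · rw [h, mul_zero] at hq
        omega
      · exact h
    have h1 : N / k i = q := by rw [hq, Nat.mul_div_cancel_left _ (hk0 i)]
    rw [h1, mul_comm, pow_mul]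
    exact (hζp.pow hN0 (by rw [hq, mul_comm])).pow_of_coprime _ (hu1 i)
  have hval : ∀ i, ι ((((X + C a) ^ n + C w : K[X]).map (algebraMap K L)).eval (b i)) =
      ζ ^ (u i * (N / k i)) + (ζ ^ (u i * (N / k i)))⁻¹ := by
    intro i
    apply T.injective
    rw [hT, hu2, map_add, map_inv₀, hTe, ← Complex.exp_neg, Complex.cos, mul_div_cancel₀ _ two_ne_zero, neg_mul]
  have hvi : ∀ i j, ζ ^ (u i * (N / k i)) + (ζ ^ (u i * (N / k i)))⁻¹ =
      ζ ^ (u j * (N / k j)) + (ζ ^ (u j * (N / k j)))⁻¹ ↔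
      (((X + C a) ^ n + C w : K[X]).map (algebraMap K L)).eval (b i) =
        (((X + C a) ^ n + C w : K[X]).map (algebraMap K L)).eval (b j) := by
    intro i j
    rw [← hval, ← hval]
    exact ι.injective.eq_iff
  have h := hmain E N ζ hN0 (Dvd.intro _ rfl) hζp m (fun i => ι (b i)) k (fun i => ζ ^ (u i * (N / k i)))
    (ι.injective.comp hbinj) (fun i => ⟨(hb i).1, hkN i, hprim i, by
      rw [← hval, hev, hKE, hKE, map_add, map_pow, map_add]⟩) (fun h0 i j h1 => hb0 h0 i j (by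
      rw [← hval, ← hval, ← map_neg] at h1
      exact ι.injective h1)) A (fun s => by
      have h1 : (s.1.comp ι).comp (algebraMap K L) = σ := by
        rw [RingHom.comp_assoc]
        exact s.2
      exact hA ⟨s.1.comp ι, h1⟩)
  refine ⟨fun i hi => h.1 i ?_, fun i j hij => h.2 i j ((hvi i j).2 hij)⟩
  obtain ⟨T', hT', hTc⟩ := hi
  exact ⟨T', fun j hj => hT' j ((hvi j i).1 hj), hTc⟩

/-- `F ^ 2 - 4` is squarefree -/
theorem sqf {K : Type*} [Field K] [CharZero K] (n : ℕ) (hn : 2 ≤ n) (a w : K) (hw : w ^ 2 ≠ 4) :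
    Squarefree (((X + C a) ^ n + C w : K[X]) ^ 2 - 4) := by
  have h4 : (4 : K) ≠ 0 := by norm_num
  set u : K[X] := X + C a with hu
  set F : K[X] := u ^ n + C w with hF
  have hw' : w ^ 2 - 4 ≠ 0 := sub_ne_zero.2 hw
  have e4 : (4 : K[X]) = C 4 := (map_ofNat C 4).symm
  have h1 : IsCoprime (F ^ 2 - 4) F := by
    refine ⟨C (-4⁻¹), C 4⁻¹ * F, ?_⟩
    have h5 : (C (4 : K)⁻¹ * C 4 : K[X]) = 1 := by rw [← C_mul, inv_mul_cancel₀ h4, C_1]
    rw [e4, C_neg]
    linear_combination h5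
  have h2 : IsCoprime (F ^ 2 - 4) u := by
    obtain ⟨n', rfl⟩ : ∃ n', n = n' + 1 := ⟨n - 1, by omega⟩
    refine ⟨C (w ^ 2 - 4)⁻¹, -(C (w ^ 2 - 4)⁻¹ * u ^ n' * (u ^ (n' + 1) + 2 * C w)), ?_⟩
    have h5 : (C (w ^ 2 - 4)⁻¹ * (C w ^ 2 - 4) : K[X]) = 1 := by
      rw [e4, ← C_pow, ← C_sub, ← C_mul, inv_mul_cancel₀ hw', C_1]
    rw [hF]
    linear_combination h5
  have hder : derivative (F ^ 2 - 4) = C (2 * n : K) * F * u ^ (n - 1) := by
    rw [e4, hF, hu]
    simp only [derivative_sub, derivative_C, derivative_pow, derivative_add, derivative_X, add_zero, mul_one, sub_zero]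
    simp only [Nat.cast_ofNat, C_mul, C_ofNat, map_natCast]
    ring
  have hsep : (F ^ 2 - 4).Separable := by
    rw [Separable, hder]
    refine IsCoprime.mul_right (IsCoprime.mul_right ?_ h1) h2.pow_right
    have h6 : (2 * n : K) ≠ 0 := mul_ne_zero two_ne_zero (Nat.cast_ne_zero.2 (by omega))
    refine ⟨0, C (2 * n : K)⁻¹, ?_⟩
    rw [zero_mul, zero_add, ← C_mul, inv_mul_cancel₀ h6, C_1]
  exact hsep.squarefree

end Pool.Agent.K9h21.RP
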