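import Mathlib

set_option autoImplicit false

/-!
# Project RP: curves `z + 1/z = (x + a)^n + w`. Statements which need only Mathlib.
-/

namespace Pool.Agent.K9h21.RP

open Polynomial

/-- EMB: the characters of order dividing `n` of `n`-th roots are linearly independent on the embeddings -/
def S_EMB.{u, v, w} : Prop := ∀ (k : Type u) (L : Type v) [Field k] [Field L] [CharZero k] [Algebra k L]
  [FiniteDimensional k L] (s₂ : L →+* ℂ) (n : ℕ) (ω : L) (ι : Type w) [Fintype ι] (y : ι → L), 0 < n →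
  IsPrimitiveRoot ω n → ω ∈ (algebraMap k L).range → (∀ i, y i ^ n ∈ (algebraMap k L).range) →
  (∀ i (j : ℕ), 0 < j → j < n → y i ^ j ∉ (algebraMap k L).range) →
  (∀ i i' (j j' : ℕ), i ≠ i' → 0 < j → j < n → 0 < j' → j' < n → y i ^ j * y i' ^ j' ∉ (algebraMap k L).range) →
  ∀ (A : ι → L → ℂ) (f : ℂ → ℂ),
  (∀ s : L →+* ℂ, s.comp (algebraMap k L) = s₂.comp (algebraMap k L) →
    ∑ i, ∑ ξ ∈ nthRootsFinset n (1 : L), A i ξ * f (s ξ * s (y i)) = 0) →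
  ∀ (i : ι) (j : ℕ), 0 < j → j < n → (∑ u ∈ nthRootsFinset n (1 : ℂ), f (u * s₂ (y i)) * (u⁻¹) ^ j) ≠ 0 →
    ∑ ξ ∈ nthRootsFinset n (1 : L), A i ξ * s₂ ξ ^ j = 0

/-- FOU: functions on the roots of unity with vanishing Fourier coefficients are constant -/
def S_FOU.{v} : Prop := ∀ (L : Type v) [Field L] (s₂ : L →+* ℂ) (n : ℕ) (ω : L), 0 < n → IsPrimitiveRoot ω n →
  ∀ A : L → ℂ, (∀ j : ℕ, 0 < j → j < n → ∑ ξ ∈ nthRootsFinset n (1 : L), A ξ * s₂ ξ ^ j = 0) →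
  ∀ ξ ∈ nthRootsFinset n (1 : L), ∀ ξ' ∈ nthRootsFinset n (1 : L), A ξ = A ξ'

end Pool.Agent.K9h21.RP
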