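import Pool.Agent.N76.RG.Stm3
import Pool.Agent.K9h21.RP.StmE

set_option autoImplicit false

/-!
# Project RP: curves `z + 1/z = (x + a)^n + w`. Statements.
-/

namespace Pool.Agent.K9h21.RP

open Polynomial IntermediateField Module
open Pool.Agent.N76.EC (Sys P Zp)
open Pool.Agent.N76.RG (RU)
open scoped Real

/-- TOR: torsion points -/
def S_TOR : Prop := ∀ (w : ℂ) (n i j M : ℕ) (θ : Fin M → ℂ), w ^ 2 ≠ 4 → 0 < i → i < n → 0 < j → j < n →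
  ∃ Z : Set ℂ, Z.Finite ∧ ∀ ζ : ℂ, (∃ m : ℕ, 0 < m ∧ ζ ^ m = 1) → ζ ∉ Z → ∀ z : Fin M → ℂ, (∀ s, RU (z s)) →
    (∑ s, θ s * z s) ^ n ≠ (ζ + ζ⁻¹ - w) ^ i ∧
    ∀ ζ' : ℂ, (∃ m : ℕ, 0 < m ∧ ζ' ^ m = 1) → ζ' + ζ'⁻¹ ≠ w →
      (∑ s, θ s * z s) ^ n = (ζ + ζ⁻¹ - w) ^ i * (ζ' + ζ'⁻¹ - w) ^ j →
      ζ' + ζ'⁻¹ = ζ + ζ⁻¹ ∨ (w = 0 ∧ ζ' + ζ'⁻¹ = -(ζ + ζ⁻¹))

/-- NPW: independence of the extensions by the `n`-th roots, all levels -/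
def S_NPW.{u, v} : Prop := ∀ (K : Type u) [Field K] [NumberField K] (n : ℕ) (w : K), 2 ≤ n → w ^ 2 ≠ 4 →
  IsIntegral ℤ ((n : K) ^ n * w) → ∃ N₀ : ℕ, ∀ (N : ℕ), 0 < N → ∀ (E : Type v) [Field E] [NumberField E]
    [Algebra K E] (ζ : E), IsPrimitiveRoot ζ N →
    ∀ (m m' : ℕ) (e e' d d' : E), N₀ ≤ m → N₀ ≤ m' → IsPrimitiveRoot e m → IsPrimitiveRoot e' m' →
    d ^ n = (n : E) ^ n * (e + e⁻¹ - algebraMap K E w) →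
    d' ^ n = (n : E) ^ n * (e' + e'⁻¹ - algebraMap K E w) →
    ∀ i j : ℕ, 0 < i → i < n → 0 < j → j < n →
    d ^ i ∉ K⟮ζ⟯ ∧ (e' + e'⁻¹ ≠ e + e⁻¹ → (w = 0 → e' + e'⁻¹ ≠ -(e + e⁻¹)) → d ^ i * d' ^ j ∉ K⟮ζ⟯)

/-- WIN: a window in which all the Fourier coefficients of the regulators of a fibre are different from zero -/
def S_WIN : Prop := ∀ {G : ℂ[X]} {n : ℕ} {η φ₀ ε : ℝ} {L : Fin n → ℂ → ℂ} {X : Fin n → ℝ → ℂ}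
  (_ : Sys G n η φ₀ ε L X) (a w : ℂ), 2 ≤ n → G = (Polynomial.X + C a) ^ n + C w → ∀ l : Fin n,
  ∃ (α δ : ℝ), 0 < δ ∧ (∀ β, |β - α| < δ → |β - φ₀| < ε) ∧
    ∀ β, |β - α| < δ → ∀ y : ℂ, y ^ n = 2 * Complex.cos β - w → ∀ j : ℕ, 0 < j → j < n →
      ∑ u ∈ nthRootsFinset n (1 : ℂ), (P (X l) (Zp η) (u * y - a) : ℂ) * (u⁻¹) ^ j ≠ 0

end Pool.Agent.K9h21.RP
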