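import Mathlib

set_option autoImplicit false

/-!
# Project RP: powers of Laurent polynomials. Statement which needs only Mathlib.
-/

namespace Pool.Agent.K9h21.RP

open scoped LaurentPolynomial

/-- `x T ^ a + x⁻¹ T ^ (-a) - w` -/
noncomputable def HH (w x : ℂ) (a : ℤ) : ℂ[T;T⁻¹] :=
  LaurentPolynomial.C x * LaurentPolynomial.T a + LaurentPolynomial.C x⁻¹ * LaurentPolynomial.T (-a) -
    LaurentPolynomial.C w

/-- ZER: `n`-th powers of Laurent polynomials. (The zeros of `HH w x a` in `ℂ*` are simple, as `w² ≠ 4`; so in (2) the two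
factors have the same zeros.) -/
def S_ZER : Prop := ∀ (w x x' : ℂ) (a b : ℤ) (n i j : ℕ) (Y : ℂ[T;T⁻¹]), w ^ 2 ≠ 4 → x ≠ 0 → x' ≠ 0 → a ≠ 0 →
  0 < i → i < n → 0 < j → j < n →
  (∀ κ : ℂ, κ ≠ 0 → Y ^ n ≠ LaurentPolynomial.C κ * HH w x a ^ i) ∧
  (b ≠ 0 → Y ^ n = HH w x a ^ i * HH w x' b ^ j →
    x' + x'⁻¹ = x + x⁻¹ ∨ (w = 0 ∧ x' + x'⁻¹ = -(x + x⁻¹)))

end Pool.Agent.K9h21.RP
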