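import Pool.Agent.K9h21.RP.Indep

set_option autoImplicit false

/-!
# Project RP: independence over `ℝ` of the regulators: the classes and the loops
-/

namespace Pool.Agent.K9h21.RP

open Polynomial IntermediateField Module MeasureTheory Set
open Pool.Agent.TH826.MK (KQ Torus symb)
open Pool.Agent.TH826.HD (PRing POpen pent toP pcst pDel)
open Pool.Agent.N76.EC
open Pool.Agent.N76.RG (S_SPG S_DET exact_angle special_angle angle_special nsq_ext exists_loop')
open scoped Real

theorem monic_ {R : Type*} [CommRing R] [Nontrivial R] (n : ℕ) (hn : 2 ≤ n) (a w : R) :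
    ((X + C a) ^ n + C w : R[X]).Monic ∧ ((X + C a) ^ n + C w : R[X]).natDegree = n := by
  have h1 : ((X + C a) ^ n : R[X]).Monic := (monic_X_add_C a).pow n
  have h2 : ((X + C a) ^ n : R[X]).natDegree = n := by
    rw [(monic_X_add_C a).natDegree_pow, natDegree_X_add_C, mul_one]
  have h3 : (C w : R[X]).degree < ((X + C a) ^ n : R[X]).degree := by
    rw [degree_eq_natDegree h1.ne_zero, h2]
    exact lt_of_le_of_lt degree_C_le (by exact_mod_cast (by omega : 0 < n))
  refine ⟨h1.add_of_left h3, ?_⟩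
  rw [natDegree_add_C, h2]

/-- **Special points of all large levels.** -/
theorem strong_.{u, v, w₁} (hNPW : S_NPW.{u, v}) (hSPG : S_SPG.{u, v}) (hWIN : S_WIN) (hEMB : S_EMB.{v, v, v})
    (hDET : S_DET.{v}) (K : Type u) [Field K] [NumberField K] (n : ℕ) (hn : 2 ≤ n) (a w : K) (F : K[X])
    (hF : F = (X + C a) ^ n + C w) (hint : ∀ i, IsIntegral ℤ (F.coeff i)) (hw : w ^ 2 ≠ 4) (σ : K →+* ℂ) :
    ∃ k₀ : ℕ, 3 ≤ k₀ ∧ ∀ (L : Type v) [Field L] [NumberField L] [Algebra K L] (m : ℕ) (b : Fin (m + 1) → L)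
      (k : Fin (m + 1) → ℕ), Function.Injective b →
      (∀ i, k₀ ≤ k i ∧ (Chebyshev.C L (k i)).eval ((F.map (algebraMap K L)).eval (b i)) = 2 ∧
        ∀ q : ℕ, 0 < q → q < k i → (Chebyshev.C L q).eval ((F.map (algebraMap K L)).eval (b i)) ≠ 2) →
      (w = 0 → ∀ i j, (F.map (algebraMap K L)).eval (b i) ≠ -(F.map (algebraMap K L)).eval (b j)) →
      (∀ i, (F.map (algebraMap K L)).eval (b i) ≠ (F.map (algebraMap K L)).eval (b 0) →
        ∃ T : Finset (Fin (m + 1)), (∀ j, (F.map (algebraMap K L)).eval (b j) =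
          (F.map (algebraMap K L)).eval (b i) → j ∈ T) ∧ T.card < n) →
      (∃ N : ℕ, 0 < N ∧ ∀ i, b i ∈ Sp F L N) ∧
      (∀ (M : Type w₁) [Field M] [Algebra (PRing (F.map (algebraMap K L))) M]
        [IsFractionRing (PRing (F.map (algebraMap K L))) M]
        (f : POpen (F.map (algebraMap K L)) b →+* M)
        (_ : ∀ a : PRing (F.map (algebraMap K L)), f (toP (F.map (algebraMap K L)) b a) = algebraMap _ M a),
        LinearIndependent ℚ fun i : Fin m =>
          KQ.map 2 f (symb (pent (F.map (algebraMap K L)) b i.succ 0))) ∧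
      ∃ (s : Fin m → (L →+* ℂ)) (Γ : Fin m → Torus (POpen (F.map (algebraMap K L)) b) 1),
        Function.Injective s ∧ (∀ i, (s i).comp (algebraMap K L) = σ) ∧
        (∀ i t (y : L), (Γ i).e t (pcst (F.map (algebraMap K L)) b y) = s i y) ∧
        (Matrix.of fun i j : Fin m => (Γ i).reg (symb (pent (F.map (algebraMap K L)) b j.succ 0))).det ≠ 0 := by
  classical
  subst hF
  have hn0 : 0 < n := by omega
  have hsq := sqf n hn a w hw
  obtain ⟨hF1, hdeg⟩ := monic_ n hn a w
  obtain ⟨η, φ₀, ε, B, X', S⟩ := exists_sys (hF1.map σ) hn0 (by rw [hF1.natDegree_map, hdeg])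
    (Pool.Agent.N76.EC.not_crit' hsq σ (by norm_num)) (Pool.Agent.N76.EC.not_crit' hsq σ (by norm_num))
  set l : Fin n := ⟨0, hn0⟩ with hl
  obtain ⟨k₀, hk₀, hmain⟩ := indep_ hNPW hSPG hWIN hEMB K n hn a w hint hw σ S l
  refine ⟨k₀, hk₀, fun L _ _ _ m b k hbinj hb hb0 hbT => ?_⟩
  set F : K[X] := (X + C a) ^ n + C w with hFdef
  obtain ⟨⟨s₁, hs₁⟩⟩ := Em_nonempty L σ
  have hk3 : ∀ i, 3 ≤ k i := fun i => hk₀.trans (hb i).1
  have hk0 : ∀ i, 0 < k i := fun i => by
    have := hk3 i
    omega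
  set N : ℕ := ∏ i, k i with hN
  have hN0 : 0 < N := Finset.prod_pos fun i _ => hk0 i
  have hkN : ∀ i, k i ∣ N := fun i => Finset.dvd_prod_of_mem k (Finset.mem_univ i)
  have hSp : ∀ i, b i ∈ Sp F L N := by
    intro i
    obtain ⟨u, hu⟩ := special_angle s₁ (hk0 i) (hb i).2.1
    obtain ⟨q, hq⟩ := hkN i
    have hq0 : 0 < q := by
      rcases Nat.eq_zero_or_pos q with h | h
      · rw [h, mul_zero] at hq
        omega
      · exact h
    refine ⟨angle_special s₁ hN0 (u := u * q) ?_, fun h => ?_⟩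
    · rw [hu, hq]
      congr 2
      have h1 : (k i : ℂ) ≠ 0 := Nat.cast_ne_zero.2 (hk0 i).ne'
      have h2 : (q : ℂ) ≠ 0 := Nat.cast_ne_zero.2 hq0.ne'
      push_cast
      field_simp
    · have h3 : ((F.map (algebraMap K L)).eval (b i) - 2) * ((F.map (algebraMap K L)).eval (b i) + 2) = 0 := by
        linear_combination h
      have h4 := hk3 i
      rcases mul_eq_zero.1 h3 with h5 | h5
      · refine (hb i).2.2 1 one_pos (by omega) ?_
        rw [sub_eq_zero.1 h5]
        exact Chebyshev.C_eval_two L 1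
      · refine (hb i).2.2 2 two_pos (by omega) ?_
        rw [eq_neg_of_add_eq_zero_left h5]
        norm_num
  have hKL : FiniteDimensional K L := FiniteDimensional.right ℚ K L
  -- the vectors
  have hind : LinearIndependent ℝ fun (i : Fin m) (s : Em L σ) =>
      P (X' l) (Zp η) (s.1 (b i.succ)) - P (X' l) (Zp η) (s.1 (b 0)) := by
    rw [Fintype.linearIndependent_iff]
    intro c hc
    set A : Fin (m + 1) → ℝ := Fin.cons (-∑ i, c i) c with hA
    have hAsum : ∑ i, A i = 0 := by
      rw [Fin.sum_univ_succ, hA]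
      simp only [Fin.cons_zero, Fin.cons_succ]
      ring
    obtain ⟨h1, h2⟩ := hmain L m.succ b k hbinj hb hb0 A (fun s => by
      have h2 := congrFun hc s
      rw [Finset.sum_apply] at h2
      simp only [Pi.smul_apply, smul_eq_mul, Pi.zero_apply, mul_sub, Finset.sum_sub_distrib] at h2
      rw [← Finset.sum_mul] at h2
      show ∑ i : Fin (m + 1), A i * P (X' l) (Zp η) (s.1 (b i)) = 0
      rw [Fin.sum_univ_succ, hA]
      simp only [Fin.cons_zero, Fin.cons_succ]
      linarith)
    have h3 : ∀ i, A i = if (F.map (algebraMap K L)).eval (b i) = (F.map (algebraMap K L)).eval (b 0)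
        then A 0 else 0 := by
      intro i
      by_cases h : (F.map (algebraMap K L)).eval (b i) = (F.map (algebraMap K L)).eval (b 0)
      · rw [if_pos h]
        exact h2 i 0 h
      · rw [if_neg h]
        exact h1 i (hbT i h)
    have h4 : A 0 = 0 := by
      rw [Finset.sum_congr rfl fun i _ => h3 i, ← Finset.sum_filter, Finset.sum_const, nsmul_eq_mul] at hAsum
      refine (mul_eq_zero.1 hAsum).resolve_left ?_
      refine Nat.cast_ne_zero.2 (Finset.card_pos.2 ⟨0, ?_⟩).ne'
      rw [Finset.mem_filter]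
      exact ⟨Finset.mem_univ _, rfl⟩
    intro i
    have h5 := h3 i.succ
    rw [h4, ite_self, hA, Fin.cons_succ] at h5
    exact h5
  have hindQ : LinearIndependent ℚ fun i : Fin m =>
      vv σ X' η (b i.succ) - vv σ X' η (b 0) := by
    have h1 : LinearIndependent ℚ fun (i : Fin m) (s : Em L σ) =>
        P (X' l) (Zp η) (s.1 (b i.succ)) - P (X' l) (Zp η) (s.1 (b 0)) := by
      refine hind.restrict_scalars ?_
      intro a b hab
      simpa using hab
    exact LinearIndependent.of_comp (LinearMap.funLeft ℚ ℝ fun s : Em L σ => ((s, l) : Em L σ × Fin n)) h1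
  refine ⟨⟨N, hN0, hSp⟩, fun M _ _ _ f hf => S.classes_independent hN0 hSp hindQ M f hf, ?_⟩
  have hfin : Finite (Em L σ) := inferInstance
  obtain ⟨e, he, hdet⟩ := hDET (Em L σ) m _ hind
  choose Γ hΓ1 hΓ2 using fun i : Fin m => exists_loop' S (e i) hN0 _ hSp l
  refine ⟨fun i => (e i).1, Γ, fun i j hij => he (Subtype.ext hij), fun i => (e i).2, hΓ1, ?_⟩
  have h1 : (Matrix.of fun i j : Fin m => (Γ i).reg
      (symb (pent (F.map (algebraMap K L)) b j.succ 0))) =
      Matrix.of fun i j : Fin m => P (X' l) (Zp η) ((e i).1 (b j.succ)) -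
        P (X' l) (Zp η) ((e i).1 (b 0)) := by
    ext i j
    rw [Matrix.of_apply, Matrix.of_apply, hΓ2]
  rw [h1]
  exact hdet

end Pool.Agent.K9h21.RP
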