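import Pool.Agent.K9h21.RP.Stm
import Pool.Agent.K9h21.RP.StmZ
import Pool.Agent.N76.RG.Tor

set_option autoImplicit false

/-!
# Project RP: torsion points

`n`-th roots of `(ζ + ζ⁻¹ - w)^i (ζ' + ζ'⁻¹ - w)^j` which are linear combinations of roots of unity with fixed
coefficients; cf. `Pool/Agent/N76/RG/Tor.lean`.
-/

namespace Pool.Agent.K9h21.RP

open scoped LaurentPolynomial

namespace Tor

open Finset Pool.Agent.N76.RG.Tor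
open Pool.Agent.N76.RG (RU)

lemma HH_eval (w x : ℂ) (a : ℤ) (t : ℂˣ) :
    LaurentPolynomial.eval₂ (RingHom.id ℂ) t (RP.HH w x a) =
      x * (t : ℂ) ^ a + (x * (t : ℂ) ^ a)⁻¹ - w := by
  unfold RP.HH
  rw [map_sub, map_add, LaurentPolynomial.eval₂_C_mul_T, LaurentPolynomial.eval₂_C_mul_T,
    LaurentPolynomial.eval₂_C, RingHom.id_apply, RingHom.id_apply, RingHom.id_apply,
    Units.val_zpow_eq_zpow_val, Units.val_zpow_eq_zpow_val, mul_inv, zpow_neg]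

lemma qpow {w x y : ℂ} (i : ℕ) (hx : x ≠ 0) : y * x ^ i = (x ^ 2 + 1 - w * x) ^ i ↔ y = (x + x⁻¹ - w) ^ i := by
  have h1 : x ^ 2 + 1 - w * x = (x + x⁻¹ - w) * x := by
    field_simp
  rw [h1, mul_pow]
  exact mul_left_inj' (pow_ne_zero _ hx)

lemma qpow2 {w x x' y : ℂ} (i j : ℕ) (hx : x ≠ 0) (hx' : x' ≠ 0) :
    y * x ^ i * x' ^ j = (x ^ 2 + 1 - w * x) ^ i * (x' ^ 2 + 1 - w * x') ^ j ↔
      y = (x + x⁻¹ - w) ^ i * (x' + x'⁻¹ - w) ^ j := by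
  have h1 : x ^ 2 + 1 - w * x = (x + x⁻¹ - w) * x := by
    field_simp
  have h2 : x' ^ 2 + 1 - w * x' = (x' + x'⁻¹ - w) * x' := by
    field_simp
  rw [h1, h2, mul_pow, mul_pow]
  have e : (x + x⁻¹ - w) ^ i * x ^ i * ((x' + x'⁻¹ - w) ^ j * x' ^ j) =
      (x + x⁻¹ - w) ^ i * (x' + x'⁻¹ - w) ^ j * x ^ i * x' ^ j := by ring
  rw [e, mul_left_inj' (pow_ne_zero _ hx'), mul_left_inj' (pow_ne_zero _ hx)]

/-- case (a) -/
theorem caseA (h : S_ZER) (w : ℂ) (hw : w ^ 2 ≠ 4) (n i j : ℕ) (hi : 0 < i) (hin : i < n) (hj : 0 < j) (hjn : j < n)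
    {M : ℕ} (θ : Fin M → ℂ) :
    ∃ Z : Set ℂ, Z.Finite ∧ ∀ ζ : ℂ, Rt ζ → ζ ∉ Z → ∀ z : Fin M → ℂ, (∀ i, Rt (z i)) →
      (∑ s, θ s * z s) ^ n ≠ (ζ + ζ⁻¹ - w) ^ i := by
  obtain ⟨Z, hZ, H⟩ := stru (lin θ ^ n * MvPolynomial.X (Sum.inr true) ^ i - qq w true ^ i) (Sum.inr true)
  refine ⟨Z, hZ, fun ζ hζ hζZ z hz heq => ?_⟩
  obtain ⟨k, hk, hk'⟩ := H (Sum.elim z fun _ => ζ) (by rintro (i | b); exacts [hz i, hζ]) (by
    rw [map_sub, map_mul, map_pow, map_pow, map_pow, lin_eval, qq_eval, MvPolynomial.eval_X, sub_eq_zero]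
    exact (qpow i hζ.ne).2 heq) hζZ
  have hFF : FF θ z (fun i => k (Sum.inl i)) ^ n = RP.HH w ζ (k (Sum.inr true)) ^ i := by
    refine lau_eq _ _ fun t => ?_
    rw [map_pow, map_pow, FF_eval, HH_eval]
    have h1 := hk' t t.ne_zero
    rw [map_sub, map_mul, map_pow, map_pow, map_pow, lin_eval, qq_eval, MvPolynomial.eval_X, sub_eq_zero] at h1
    exact (qpow i (mul_ne_zero hζ.ne (zpow_ne_zero _ t.ne_zero))).1 h1
  refine (h w ζ 1 (k (Sum.inr true)) 1 n i j (FF θ z fun i => k (Sum.inl i)) hw hζ.ne one_ne_zero hk hi hin hj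
    hjn).1 1 one_ne_zero ?_
  rw [map_one, one_mul]
  exact hFF

/-- case (b) -/
theorem caseB (h : S_ZER) (w : ℂ) (hw : w ^ 2 ≠ 4) (n i j : ℕ) (hi : 0 < i) (hin : i < n) (hj : 0 < j) (hjn : j < n)
    {M : ℕ} (θ : Fin M → ℂ) :
    ∃ Z : Set ℂ, Z.Finite ∧ ∀ ζ : ℂ, Rt ζ → ζ ∉ Z → ∀ z : Fin M → ℂ, (∀ i, Rt (z i)) →
      ∀ ζ' : ℂ, Rt ζ' → ζ' + ζ'⁻¹ ≠ w →
      (∑ s, θ s * z s) ^ n = (ζ + ζ⁻¹ - w) ^ i * (ζ' + ζ'⁻¹ - w) ^ j →
      ζ' + ζ'⁻¹ = ζ + ζ⁻¹ ∨ (w = 0 ∧ ζ' + ζ'⁻¹ = -(ζ + ζ⁻¹)) := by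
  obtain ⟨Z, hZ, H⟩ := stru (lin θ ^ n * MvPolynomial.X (Sum.inr true) ^ i * MvPolynomial.X (Sum.inr false) ^ j -
    qq w true ^ i * qq w false ^ j) (Sum.inr true)
  refine ⟨Z, hZ, fun ζ hζ hζZ z hz ζ' hζ' hne heq => ?_⟩
  obtain ⟨k, hk, hk'⟩ := H (Sum.elim z fun b => if b = true then ζ else ζ') (by
    rintro (i | (_ | _))
    · exact hz i
    · exact hζ'
    · exact hζ) (by
    rw [map_sub, map_mul, map_mul, map_mul, map_pow, map_pow, map_pow, map_pow, map_pow, lin_eval, qq_eval, qq_eval,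
      MvPolynomial.eval_X, MvPolynomial.eval_X, sub_eq_zero]
    exact (qpow2 i j hζ.ne hζ'.ne).2 heq) hζZ
  have hFF : FF θ z (fun i => k (Sum.inl i)) ^ n =
      RP.HH w ζ (k (Sum.inr true)) ^ i * RP.HH w ζ' (k (Sum.inr false)) ^ j := by
    refine lau_eq _ _ fun t => ?_
    rw [map_pow, map_mul, map_pow, map_pow, FF_eval, HH_eval, HH_eval]
    have h1 := hk' t t.ne_zero
    rw [map_sub, map_mul, map_mul, map_mul, map_pow, map_pow, map_pow, map_pow, map_pow, lin_eval, qq_eval, qq_eval,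
      MvPolynomial.eval_X, MvPolynomial.eval_X, sub_eq_zero] at h1
    exact (qpow2 i j (mul_ne_zero hζ.ne (zpow_ne_zero _ t.ne_zero))
      (mul_ne_zero hζ'.ne (zpow_ne_zero _ t.ne_zero))).1 h1
  by_cases hl : k (Sum.inr false) = 0
  · exfalso
    have hκ : ζ' + ζ'⁻¹ - w ≠ 0 := sub_ne_zero.2 hne
    refine (h w ζ 1 (k (Sum.inr true)) 1 n i j (FF θ z fun i => k (Sum.inl i)) hw hζ.ne one_ne_zero hk hi hin hj
      hjn).1 ((ζ' + ζ'⁻¹ - w) ^ j) (pow_ne_zero _ hκ) ?_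
    refine lau_eq _ _ fun t => ?_
    have h3 := congrArg (LaurentPolynomial.eval₂ (RingHom.id ℂ) t) hFF
    rw [h3, map_mul, map_mul, map_pow, map_pow, HH_eval, HH_eval, hl, zpow_zero, mul_one,
      LaurentPolynomial.eval₂_C, RingHom.id_apply, mul_comm]
  · exact (h w ζ ζ' (k (Sum.inr true)) (k (Sum.inr false)) n i j _ hw hζ.ne hζ'.ne hk hi hin hj hjn).2 hl hFF

end Tor

/-- TOR -/
theorem tor (h : S_ZER) : S_TOR := by
  classical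
  intro w n i j M θ hw hi hin hj hjn
  choose ZA hZA HA using fun A : Finset (Fin M) => Tor.caseA h w hw n i j hi hin hj hjn fun s => if s ∈ A then θ s else 0
  choose ZB hZB HB using fun A : Finset (Fin M) => Tor.caseB h w hw n i j hi hin hj hjn fun s => if s ∈ A then θ s else 0
  refine ⟨(⋃ A, ZA A) ∪ ⋃ A, ZB A, (Set.finite_iUnion hZA).union (Set.finite_iUnion hZB), ?_⟩
  intro ζ hζ hζZ z hz
  obtain ⟨A, z', hz', hsum⟩ := Pool.Agent.N76.RG.Tor.ru_split θ z hz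
  have h1 : ζ ∉ ZA A := fun hm => hζZ (Or.inl (Set.mem_iUnion.2 ⟨A, hm⟩))
  have h2 : ζ ∉ ZB A := fun hm => hζZ (Or.inr (Set.mem_iUnion.2 ⟨A, hm⟩))
  rw [hsum]
  exact ⟨HA A ζ hζ h1 z' hz', fun ζ' hζ' hne heq => HB A ζ hζ h2 z' hz' ζ' hζ' hne heq⟩

end Pool.Agent.K9h21.RP
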