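import Pool.Agent.K9h21.RP.Stm
import Pool.Agent.N76.EC.Comb

set_option autoImplicit false

/-!
# Project RP, WIN (helper76): a window in which the Fourier coefficients do not vanish
-/

namespace Pool.Agent.K9h21.RP

open Polynomial MeasureTheory Set Filter Topology
open Pool.Agent.N76.EC (Sys P Zp Wp J Loop real_mem th nz_sub pr_const' ld)
open Pool.Agent.TH826.UH (pr NZ pr_mul)
open Pool.Agent.N76.IR (Strip mem_Strip isOpen_Strip)
open scoped Real

namespace Win

variable {G : ℂ[X]} {n : ℕ} {η φ₀ ε : ℝ} {L : Fin n → ℂ → ℂ} {X : Fin n → ℝ → ℂ}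

/-- the restriction to a smaller window -/
theorem restrict (S : Sys G n η φ₀ ε L X) {α δ : ℝ} (hδ : 0 < δ) (h : |α - φ₀| + δ ≤ ε) :
    Sys G n η α δ L X := by
  have h1 := abs_le.1 (le_refl |α - φ₀|)
  have hsub : Strip α δ ⊆ Strip φ₀ ε := by
    intro θ hθ
    rw [mem_Strip] at hθ ⊢
    have h2 : θ.re - φ₀ = (θ.re - α) + (α - φ₀) := by ring
    rw [h2]
    exact (abs_add_le _ _).trans_lt (by linarith)
  exact
    { monic := S.monic
      deg := S.deg
      pos := S.pos
      hη := S.hη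
      hε := hδ
      h0 := by
        have := S.h0
        linarith [h1.1]
      h1 := by
        have := S.h1
        linarith [h1.2]
      Ld := fun k => (S.Ld k).mono hsub
      Lev := fun k θ hθ => S.Lev k θ (hsub hθ)
      Linj := fun θ hθ => S.Linj θ (hsub hθ)
      loop := S.loop
      Xev := S.Xev
      Xneg := S.Xneg
      Xinj := S.Xinj
      XL := fun l t ht => S.XL l t (by
        have h2 : 2 * π * t - φ₀ = (2 * π * t - α) + (α - φ₀) := by ring
        rw [h2]
        exact (abs_add_le _ _).trans_lt (by linarith)) }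

variable (S : Sys G n η φ₀ ε L X) {a w : ℂ} (hn : 2 ≤ n) (hG : G = (Polynomial.X + C a) ^ n + C w)

include hG in
theorem eval_G (x : ℂ) : G.eval x = (x + a) ^ n + w := by
  rw [hG]
  simp

include S hG in
theorem X_pow (l : Fin n) (t : ℝ) : (X l t + a) ^ n = Wp η t - w := by
  rw [← S.Xev l t, eval_G hG, add_sub_cancel_right]

include hn in
theorem exists_ne (l : Fin n) : ∃ l' : Fin n, l' ≠ l := by
  have : Nontrivial (Fin n) := Fin.nontrivial_iff_two_le.2 hn
  exact _root_.exists_ne l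

include S hn hG in
theorem X_ne (l : Fin n) (t : ℝ) : X l t + a ≠ 0 := by
  intro h
  obtain ⟨l', hl'⟩ := exists_ne hn l
  have h1 : (X l' t + a) ^ n = 0 := by
    rw [X_pow S hG, ← X_pow S hG l t, h, zero_pow (by omega)]
  have h2 : X l' t + a = 0 := pow_eq_zero_iff (by omega) |>.1 h1
  exact hl' (S.Xinj t (add_right_cancel (h2.trans h.symm)))

include S hG in
theorem L_pow (k : Fin n) {β : ℝ} (hβ : |β - φ₀| < ε) : (L k β + a) ^ n = 2 * Complex.cos β - w := by
  rw [← S.Lev k β (real_mem hβ), eval_G hG, add_sub_cancel_right]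

include S hn hG in
theorem L_ne (k : Fin n) {β : ℝ} (hβ : |β - φ₀| < ε) : L k β + a ≠ 0 := by
  intro h
  obtain ⟨l', hl'⟩ := exists_ne hn k
  have h1 : (L l' β + a) ^ n = 0 := by
    rw [L_pow S hG l' hβ, ← L_pow S hG k hβ, h, zero_pow (by omega)]
  have h2 : L l' β + a = 0 := pow_eq_zero_iff (by omega) |>.1 h1
  exact hl' (S.Linj _ (real_mem hβ) (add_right_cancel (h2.trans h.symm)))

include S hn hG in
/-- the loops are rotations of each other -/
theorem exists_xi (l l' : Fin n) : ∃ ξ : ℂ, ξ ^ n = 1 ∧ ∀ t, X l' t + a = ξ * (X l t + a) := by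
  have hc : Continuous fun t => (X l' t + a) / (X l t + a) :=
    ((S.loop l').hX.continuous.add continuous_const).div ((S.loop l).hX.continuous.add continuous_const)
      fun t => X_ne S hn hG l t
  have hT : ∀ t, (X l' t + a) / (X l t + a) ∈ {z : ℂ | z ^ n = 1} := by
    intro t
    have h0 := X_ne S hn hG l t
    rw [Set.mem_ofPred_eq, div_pow, X_pow S hG l', X_pow S hG l]
    refine div_self ?_
    rw [← X_pow S hG l]
    exact pow_ne_zero n h0
  have hfin : {z : ℂ | z ^ n = 1}.Finite := by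
    have h1 : {z : ℂ | z ^ n = 1} = (nthRootsFinset n (1 : ℂ) : Set ℂ) := by
      ext z
      rw [Finset.mem_coe, mem_nthRootsFinset (by omega)]
      rfl
    rw [h1]
    exact Finset.finite_toSet _
  obtain ⟨ξ, hξ, h2⟩ := isPreconnected_univ.eqOn_const_of_mapsTo (f := fun t => (X l' t + a) / (X l t + a))
    (T := {z : ℂ | z ^ n = 1}) hfin.isDiscrete hc.continuousOn (fun t _ => hT t) ⟨1, one_pow n⟩
  refine ⟨ξ, hξ, fun t => ?_⟩
  have h3 : (X l' t + a) / (X l t + a) = ξ := h2 (mem_univ t)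
  rw [← h3, div_mul_cancel₀ _ (X_ne S hn hG l t)]

/-- the Fourier coefficient -/
noncomputable def Fc (n : ℕ) (η : ℝ) (X : ℝ → ℂ) (a y : ℂ) (j : ℕ) : ℂ :=
  ∑ u ∈ nthRootsFinset n (1 : ℂ), (P X (Zp η) (u * y - a) : ℂ) * (u⁻¹) ^ j

include hn in
theorem Fc_mul {v : ℂ} (hv : v ^ n = 1) (Y : ℝ → ℂ) (y : ℂ) (j : ℕ) :
    Fc n η Y a (v * y) j = v ^ j * Fc n η Y a y j := by
  have hv0 : v ≠ 0 := by
    rintro rfl
    rw [zero_pow (by omega)] at hv
    exact zero_ne_one hv
  unfold Fc
  rw [Finset.mul_sum]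
  refine Finset.sum_bij' (fun u _ => u * v) (fun u _ => u * v⁻¹) ?_ ?_ ?_ ?_ ?_
  · intro u hu
    rw [mem_nthRootsFinset (by omega)] at hu ⊢
    rw [mul_pow, hu, hv, one_mul]
  · intro u hu
    rw [mem_nthRootsFinset (by omega)] at hu ⊢
    rw [mul_pow, inv_pow, hu, hv, inv_one, one_mul]
  · intro u _
    rw [mul_assoc, mul_inv_cancel₀ hv0, mul_one]
  · intro u _
    rw [mul_assoc, inv_mul_cancel₀ hv0, mul_one]
  · intro u _
    rw [mul_assoc u v y, mul_inv, mul_pow, inv_pow v]
    have h1 : v ^ j ≠ 0 := pow_ne_zero j hv0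
    field_simp

include S hn in
theorem P_rot {l l' : Fin n} {ξ : ℂ} (hξ : ξ ^ n = 1) (h : ∀ t, X l' t + a = ξ * (X l t + a)) {b : ℂ}
    (hb : ∀ t, X l' t ≠ b) : P (X l') (Zp η) b = P (X l) (Zp η) (ξ⁻¹ * (b + a) - a) := by
  have hξ0 : ξ ≠ 0 := by
    rintro rfl
    rw [zero_pow (by omega)] at hξ
    exact zero_ne_one hξ
  have hnorm : ‖ξ‖ = 1 := Complex.norm_eq_one_of_pow_eq_one hξ (by omega)
  have h1 : ∀ t, X l' t - b = ξ * (X l t - (ξ⁻¹ * (b + a) - a)) := by
    intro t
    have h2 := h t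
    have h3 : X l' t = ξ * (X l t + a) - a := by rw [← h2]; ring
    rw [h3]
    field_simp
    ring
  have hb' : ∀ t, X l t ≠ ξ⁻¹ * (b + a) - a := by
    intro t h2
    have h3 := h1 t
    rw [h2, sub_self, mul_zero, sub_eq_zero] at h3
    exact hb t h3
  unfold P
  have h2 : (fun t => X l' t - b) = fun t => (fun _ : ℝ => ξ) t * (fun t => X l t - (ξ⁻¹ * (b + a) - a)) t :=
    funext h1
  rw [h2, pr_mul (Pool.Agent.N76.EC.nz_Zp η) ⟨contDiff_const, fun _ => hξ0⟩ (nz_sub (S.loop l) hb'), pr_const', hnorm,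
    Real.log_one, zero_mul, neg_zero, zero_add]

include S hn in
theorem Fc_branch {l : Fin n} {ξ : Fin n → ℂ} (hξ : ∀ l', ξ l' ^ n = 1)
    (h : ∀ l' t, X l' t + a = ξ l' * (X l t + a)) (k : Fin n) {β : ℝ} (hβ : |β - φ₀| < ε) (j : ℕ) :
    Fc n η (X l) a (L k β + a) j = ∑ l', (J X η L l' k β : ℂ) * ξ l' ^ j := by
  classical
  have hinj : Function.Injective fun l' => (ξ l')⁻¹ := by
    intro l₁ l₂ h12
    have h1 : ξ l₁ = ξ l₂ := inv_injective h12
    apply S.Xinj 0
    have h2 := h l₁ 0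
    rw [h1, ← h l₂ 0] at h2
    exact add_right_cancel h2
  have himg : (Finset.univ.image fun l' => (ξ l')⁻¹) = nthRootsFinset n (1 : ℂ) := by
    refine Finset.eq_of_subset_of_card_le ?_ ?_
    · intro u hu
      obtain ⟨l', -, rfl⟩ := Finset.mem_image.1 hu
      rw [mem_nthRootsFinset (by omega), inv_pow, hξ, inv_one]
    · rw [Finset.card_image_of_injective _ hinj, Finset.card_univ, Fintype.card_fin]
      exact ((Complex.isPrimitiveRoot_exp n (by omega)).card_nthRootsFinset).le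
  unfold Fc
  rw [← himg, Finset.sum_image fun x _ y _ hxy => hinj hxy]
  refine Finset.sum_congr rfl fun l' _ => ?_
  rw [inv_inv]
  congr 2
  unfold J
  rw [P_rot S hn (hξ l') (h l') fun t => S.avoid_real hβ l' t]

include S hn hG in
/-- the coefficient does not vanish identically on a smaller window -/
theorem exists_ne_zero {l : Fin n} {ξ : Fin n → ℂ} (hξ : ∀ l', ξ l' ^ n = 1)
    (h : ∀ l' t, X l' t + a = ξ l' * (X l t + a)) {j : ℕ} (hj : 0 < j) (hjn : j < n) {α δ : ℝ} (hδ : 0 < δ)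
    (hα : |α - φ₀| + δ ≤ ε) : ∃ β : ℝ, |β - α| < δ ∧ Fc n η (X l) a (L l β + a) j ≠ 0 := by
  classical
  by_contra hcon
  push Not at hcon
  have S' := restrict S hδ hα
  -- all branches
  have hall : ∀ k β, |β - α| < δ → ∑ l', (J X η L l' k β : ℂ) * ξ l' ^ j = 0 := by
    intro k β hβ
    rw [← Fc_branch S' hn hξ h k hβ]
    have h0 := L_ne S' hn hG l hβ
    set v := (L k β + a) / (L l β + a) with hv
    have hvn : v ^ n = 1 := by
      rw [hv, div_pow, L_pow S' hG k hβ, L_pow S' hG l hβ]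
      refine div_self ?_
      rw [← L_pow S' hG l hβ]
      exact pow_ne_zero n h0
    have h1 : L k β + a = v * (L l β + a) := by
      rw [hv, div_mul_cancel₀ _ h0]
    rw [h1, Fc_mul hn hvn, hcon β hβ, mul_zero]
  have hre : ∀ k β, |β - α| < δ → ∑ l', (ξ l' ^ j).re * J X η L l' k β = 0 := by
    intro k β hβ
    have h1 := congrArg Complex.re (hall k β hβ)
    rw [Complex.re_sum, Complex.zero_re] at h1
    rw [← h1]
    refine Finset.sum_congr rfl fun l' _ => ?_
    rw [Complex.re_ofReal_mul, mul_comm]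
  have him : ∀ k β, |β - α| < δ → ∑ l', (ξ l' ^ j).im * J X η L l' k β = 0 := by
    intro k β hβ
    have h1 := congrArg Complex.im (hall k β hβ)
    rw [Complex.im_sum, Complex.zero_im] at h1
    rw [← h1]
    refine Finset.sum_congr rfl fun l' _ => ?_
    rw [Complex.im_ofReal_mul, mul_comm]
  have hαα : |α - α| < δ := by
    rw [sub_self, abs_zero]
    exact hδ
  have c1 := S'.comb_const (fun l' => (ξ l' ^ j).re) fun k β hβ => by
    rw [hre k β hβ, hre k α hαα]
  have c2 := S'.comb_const (fun l' => (ξ l' ^ j).im) fun k β hβ => by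
    rw [him k β hβ, him k α hαα]
  have hl1 : ξ l = 1 := by
    have h1 := h l 0
    have h2 := X_ne S hn hG l 0
    exact (mul_right_cancel₀ h2 (by rw [one_mul]; exact h1)).symm
  have hone : ∀ l', ξ l' ^ j = 1 := by
    intro l'
    have h1 : ξ l' ^ j = ξ l ^ j := Complex.ext (c1 l' l) (c2 l' l)
    rw [h1, hl1, one_pow]
  -- a primitive root
  have hprim := Complex.isPrimitiveRoot_exp n (by omega)
  have hinj : Function.Injective ξ := by
    intro l₁ l₂ h1
    apply S.Xinj 0
    have h2 := h l₁ 0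
    rw [h1, ← h l₂ 0] at h2
    exact add_right_cancel h2
  have himg : (Finset.univ.image ξ) = nthRootsFinset n (1 : ℂ) := by
    refine Finset.eq_of_subset_of_card_le ?_ ?_
    · intro u hu
      obtain ⟨l', -, rfl⟩ := Finset.mem_image.1 hu
      rw [mem_nthRootsFinset (by omega), hξ]
    · rw [Finset.card_image_of_injective _ hinj, Finset.card_univ, Fintype.card_fin]
      exact hprim.card_nthRootsFinset.le
  have hmem : Complex.exp (2 * π * Complex.I / n) ∈ nthRootsFinset n (1 : ℂ) := by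
    rw [mem_nthRootsFinset (by omega)]
    exact hprim.pow_eq_one
  rw [← himg] at hmem
  obtain ⟨l', -, hl'⟩ := Finset.mem_image.1 hmem
  have h1 := hone l'
  rw [hl'] at h1
  have h2 := Nat.le_of_dvd hj (hprim.dvd_of_pow_eq_one j h1)
  omega

include S in
theorem continuousAt_Fc (hn : 2 ≤ n) {l : Fin n} {ξ : Fin n → ℂ}
    (hξ : ∀ l', ξ l' ^ n = 1) (h : ∀ l' t, X l' t + a = ξ l' * (X l t + a)) (j : ℕ) {β : ℝ} (hβ : |β - φ₀| < ε) :
    ContinuousAt (fun β : ℝ => Fc n η (X l) a (L l β + a) j) β := by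
  have hmem : Ioo (φ₀ - ε) (φ₀ + ε) ∈ 𝓝 β := by
    refine Ioo_mem_nhds ?_ ?_
    · linarith [(abs_lt.1 hβ).1]
    · linarith [(abs_lt.1 hβ).2]
  have h1 : ContinuousAt (fun β : ℝ => ∑ l', (J X η L l' l β : ℂ) * ξ l' ^ j) β := by
    refine tendsto_finsetSum _ fun l' _ => ?_
    have h2 : ContinuousAt (J X η L l' l) β := (S.continuousOn_J l' l).continuousAt hmem
    exact (Complex.continuous_ofReal.continuousAt.comp h2).mul continuousAt_const
  refine h1.congr ?_
  filter_upwards [hmem] with γ hγ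
  exact (Fc_branch S hn hξ h l (abs_lt.2 ⟨by linarith [hγ.1], by linarith [hγ.2]⟩) j).symm

include S in
theorem windows (hn : 2 ≤ n) (hG : G = (Polynomial.X + C a) ^ n + C w) {l : Fin n} {ξ : Fin n → ℂ}
    (hξ : ∀ l', ξ l' ^ n = 1) (h : ∀ l' t, X l' t + a = ξ l' * (X l t + a)) (m : ℕ) (hm : m < n) :
    ∃ α δ : ℝ, 0 < δ ∧ |α - φ₀| + δ ≤ ε ∧ ∀ β, |β - α| < δ → ∀ j, 0 < j → j ≤ m →
      Fc n η (X l) a (L l β + a) j ≠ 0 := by
  induction m with
  | zero =>
    refine ⟨φ₀, ε, S.hε, by rw [sub_self, abs_zero, zero_add], fun β _ j hj hj' => ?_⟩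
    omega
  | succ m ih =>
    obtain ⟨α, δ, hδ, hα, hw⟩ := ih (by omega)
    obtain ⟨β, hβ, hne⟩ := exists_ne_zero S hn hG hξ h (j := m + 1) (by omega) hm hδ hα
    have hβ' : |β - φ₀| < ε := by
      have h2 : β - φ₀ = (β - α) + (α - φ₀) := by ring
      rw [h2]
      exact (abs_add_le _ _).trans_lt (by linarith)
    have hc := continuousAt_Fc S hn hξ h (m + 1) hβ'
    have hev := hc.eventually_ne hne
    obtain ⟨r, hr, hball⟩ := Metric.eventually_nhds_iff.1 hev
    have hpos : 0 < δ - |β - α| := by linarith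
    refine ⟨β, min r (δ - |β - α|), lt_min hr hpos, ?_, fun γ hγ j hj hjm => ?_⟩
    · have h1 := min_le_right r (δ - |β - α|)
      have h2 : |β - φ₀| ≤ |β - α| + |α - φ₀| := by
        have h3 : β - φ₀ = (β - α) + (α - φ₀) := by ring
        rw [h3]
        exact abs_add_le _ _
      linarith
    · rcases Nat.lt_or_ge m j with h1 | h1
      · have h2 : j = m + 1 := by omega
        subst h2
        refine hball ?_
        rw [Real.dist_eq]
        exact hγ.trans_le (min_le_left _ _)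
      · refine hw γ ?_ j hj h1
        have h2 : γ - α = (γ - β) + (β - α) := by ring
        rw [h2]
        have h3 := hγ.trans_le (min_le_right r (δ - |β - α|))
        exact (abs_add_le _ _).trans_lt (by linarith)

end Win

/-- **WIN** -/
theorem win : S_WIN := by
  intro G n η φ₀ ε L X S a w hn hG l
  choose ξ hξ h using fun l' => Win.exists_xi S hn hG l l'
  obtain ⟨α, δ, hδ, hα, hw⟩ := Win.windows S hn hG hξ h (n - 1) (by omega)
  have hin : ∀ β, |β - α| < δ → |β - φ₀| < ε := by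
    intro β hβ
    have h2 : β - φ₀ = (β - α) + (α - φ₀) := by ring
    rw [h2]
    exact (abs_add_le _ _).trans_lt (by linarith)
  refine ⟨α, δ, hδ, hin, fun β hβ y hy j hj hjn => ?_⟩
  have h0 := Win.L_ne S hn hG l (hin β hβ)
  have hvn : (y / (L l β + a)) ^ n = 1 := by
    rw [div_pow, hy, Win.L_pow S hG l (hin β hβ)]
    refine div_self ?_
    rw [← Win.L_pow S hG l (hin β hβ)]
    exact pow_ne_zero n h0
  have h1 : y = y / (L l β + a) * (L l β + a) := by
    rw [div_mul_cancel₀ _ h0]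
  have h2 : Win.Fc n η (X l) a y j ≠ 0 := by
    rw [h1, Win.Fc_mul hn hvn]
    refine mul_ne_zero (pow_ne_zero j ?_) (hw β hβ j hj (by omega))
    intro h3
    rw [h3, zero_pow (by omega)] at hvn
    exact zero_ne_one hvn
  exact h2

end Pool.Agent.K9h21.RP
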