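import Pool.Agent.K9h21.RP.StmZ

set_option autoImplicit false

/-!
# Project RP, ZER (helper76): powers of Laurent polynomials and the zeros of `x T ^ a + x⁻¹ T ^ (-a) - w`

The first part (the polynomial `Q` and its zeros) follows `Pool.Agent.N76.RG.Zer`.
-/

namespace Pool.Agent.K9h21.RP

open Polynomial

open scoped LaurentPolynomial

namespace Zer

/-- the monic polynomial `X^(2A) - (w / y) X^A + y^(-2)` -/
noncomputable def Q (w y : ℂ) (A : ℕ) : ℂ[X] := X ^ (2 * A) + (C (y ^ 2)⁻¹ - C (w / y) * X ^ A)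

lemma deg_aux (w y : ℂ) {A : ℕ} (hA : 0 < A) :
    (C (y ^ 2)⁻¹ - C (w / y) * X ^ A : ℂ[X]).degree < ((2 * A : ℕ) : WithBot ℕ) := by
  refine (degree_sub_le _ _).trans_lt (max_lt ?_ ?_)
  · exact degree_C_le.trans_lt (by exact_mod_cast (by omega : 0 < 2 * A))
  · exact (degree_C_mul_X_pow_le _ _).trans_lt (by exact_mod_cast (by omega : A < 2 * A))

lemma Q_monic (w y : ℂ) {A : ℕ} (hA : 0 < A) : (Q w y A).Monic :=
  monic_X_pow_add (deg_aux w y hA)

lemma Q_natDegree (w y : ℂ) {A : ℕ} (hA : 0 < A) : (Q w y A).natDegree = 2 * A := by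
  refine natDegree_eq_of_degree_eq_some ?_
  unfold Q
  rw [degree_add_eq_left_of_degree_lt, degree_X_pow]
  rw [degree_X_pow]
  exact deg_aux w y hA

lemma Q_eval (w y r : ℂ) (A : ℕ) : (Q w y A).eval r = r ^ (2 * A) + ((y ^ 2)⁻¹ - w / y * r ^ A) := by
  unfold Q
  simp

lemma Q_zero (w y : ℂ) {A : ℕ} (hA : 0 < A) : (Q w y A).eval 0 = (y ^ 2)⁻¹ := by
  rw [Q_eval, zero_pow (by omega), zero_pow hA.ne']
  ring

lemma Q_coeff (w y : ℂ) {A : ℕ} (hA : 0 < A) : (Q w y A).coeff A = -(w / y) := by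
  unfold Q
  rw [coeff_add, coeff_sub, coeff_X_pow, coeff_C, coeff_C_mul, coeff_X_pow, if_neg (by omega), if_neg hA.ne',
    if_pos rfl]
  ring

lemma Q_simple {w y r : ℂ} {A : ℕ} (hA : 0 < A) (hw : w ^ 2 ≠ 4) (hy : y ≠ 0)
    (hr : (Q w y A).eval r = 0) : (Q w y A).derivative.eval r ≠ 0 := by
  have hr0 : r ≠ 0 := by
    rintro rfl
    rw [Q_zero w y hA] at hr
    exact inv_ne_zero (pow_ne_zero 2 hy) hr
  intro hd
  obtain ⟨B, rfl⟩ : ∃ B, A = B + 1 := ⟨A - 1, by omega⟩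
  rw [Q_eval] at hr
  unfold Q at hd
  simp only [derivative_add, derivative_sub, derivative_C, derivative_X_pow, derivative_C_mul, eval_add, eval_neg,
    eval_mul, eval_C, eval_pow, eval_X, zero_sub] at hd
  have e1 : 2 * (B + 1) - 1 = 2 * B + 1 := by omega
  have e2 : B + 1 - 1 = B := by omega
  rw [e1, e2] at hd
  have hB : ((B : ℂ) + 1) ≠ 0 := by exact_mod_cast Nat.succ_ne_zero B
  have h1 : ((B : ℂ) + 1) * r ^ B * (2 * r ^ (B + 1) - w / y) = 0 := by
    rw [← hd]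
    push_cast
    ring
  have h2 : 2 * r ^ (B + 1) = w / y := by
    rcases mul_eq_zero.1 h1 with h | h
    · rcases mul_eq_zero.1 h with h | h
      · exact absurd h hB
      · exact absurd h (pow_ne_zero _ hr0)
    · exact sub_eq_zero.1 h
  have h3 : r ^ (B + 1) = w / (2 * y) := by
    field_simp at h2 ⊢
    linear_combination h2
  have h4 : r ^ (2 * (B + 1)) = (r ^ (B + 1)) ^ 2 := by rw [← pow_mul, mul_comm]
  rw [h4, h3] at hr
  apply hw
  field_simp at hr
  linear_combination (-1 : ℂ) * hr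

lemma mult_le {w y : ℂ} {A : ℕ} (hA : 0 < A) (hw : w ^ 2 ≠ 4) (hy : y ≠ 0) (r : ℂ) :
    (Q w y A).rootMultiplicity r ≤ 1 := by
  by_contra hcon
  rw [not_le, one_lt_rootMultiplicity_iff_isRoot (Q_monic w y hA).ne_zero] at hcon
  exact Q_simple hA hw hy hcon.1 hcon.2

lemma mult_pos {w y : ℂ} {A : ℕ} (hA : 0 < A) (r : ℂ) :
    0 < (Q w y A).rootMultiplicity r ↔ (Q w y A).eval r = 0 :=
  rootMultiplicity_pos (Q_monic w y hA).ne_zero

lemma mult_X {r : ℂ} (hr : r ≠ 0) (n : ℕ) : (X ^ n : ℂ[X]).rootMultiplicity r = 0 := by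
  refine rootMultiplicity_eq_zero ?_
  rw [IsRoot, eval_pow, eval_X]
  exact pow_ne_zero n hr

lemma mult_C {a : ℂ} (ha : a ≠ 0) (r : ℂ) : (C a : ℂ[X]).rootMultiplicity r = 0 := by
  refine rootMultiplicity_eq_zero ?_
  rw [IsRoot, eval_C]
  exact ha

lemma mult_pow {f : ℂ[X]} (hf : f ≠ 0) (r : ℂ) (n : ℕ) :
    (f ^ n).rootMultiplicity r = n * f.rootMultiplicity r := by
  induction n with
  | zero =>
    rw [pow_zero, zero_mul]
    refine rootMultiplicity_eq_zero ?_
    rw [IsRoot, eval_one]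
    exact one_ne_zero
  | succ n ih =>
    rw [pow_succ, rootMultiplicity_mul (mul_ne_zero (pow_ne_zero n hf) hf), ih]
    ring

/-- the first claim, for polynomials -/
lemma not_pow {w y κ : ℂ} {A : ℕ} (hA : 0 < A) (hw : w ^ 2 ≠ 4) (hy : y ≠ 0) (hκ : κ ≠ 0) {n i : ℕ} (hi : 0 < i)
    (hin : i < n) (f : ℂ[X]) (m l : ℕ) (h : f ^ n * X ^ m = C κ * (C y * Q w y A) ^ i * X ^ l) : False := by
  have hQ := (Q_monic w y hA)
  have hQ0 := hQ.ne_zero
  have hCy : (C y : ℂ[X]) ≠ 0 := C_ne_zero.2 hy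
  have hCk : (C κ : ℂ[X]) ≠ 0 := C_ne_zero.2 hκ
  have hCQ : C y * Q w y A ≠ 0 := mul_ne_zero hCy hQ0
  have hR1 : C κ * (C y * Q w y A) ^ i ≠ 0 := mul_ne_zero hCk (pow_ne_zero _ hCQ)
  have hR : C κ * (C y * Q w y A) ^ i * X ^ l ≠ 0 := mul_ne_zero hR1 (pow_ne_zero _ X_ne_zero)
  have hL : f ^ n * X ^ m ≠ 0 := by rw [h]; exact hR
  have hf : f ≠ 0 := by
    rintro rfl
    rw [zero_pow (by omega), zero_mul] at hL
    exact hL rfl
  obtain ⟨r, hr⟩ := IsAlgClosed.exists_root (Q w y A) (by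
    rw [degree_eq_natDegree hQ0, Q_natDegree w y hA]
    exact_mod_cast (by omega : 2 * A ≠ 0))
  have hr0 : r ≠ 0 := by
    rintro rfl
    rw [IsRoot, Q_zero w y hA] at hr
    exact inv_ne_zero (pow_ne_zero 2 hy) hr
  have h1 := congrArg (rootMultiplicity r) h
  rw [rootMultiplicity_mul hL, rootMultiplicity_mul hR, mult_X hr0, mult_X hr0, rootMultiplicity_mul hR1,
    mult_C hκ, mult_pow hf, mult_pow hCQ, rootMultiplicity_mul hCQ, mult_C hy] at h1
  have h2 := mult_le hA hw hy r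
  have h3 := (mult_pos (w := w) (y := y) hA r).2 hr
  have h4 : (Q w y A).rootMultiplicity r = 1 := by omega
  rw [h4] at h1
  have h5 : n ∣ i := ⟨f.rootMultiplicity r, by omega⟩
  exact absurd (Nat.le_of_dvd hi h5) (by omega)

/-- the second claim, for polynomials -/
lemma eq_of_pow {w y z : ℂ} {A B : ℕ} (hA : 0 < A) (hB : 0 < B) (hw : w ^ 2 ≠ 4) (hy : y ≠ 0) (hz : z ≠ 0)
    {n i j : ℕ} (hi : 0 < i) (hin : i < n) (hj : 0 < j) (hjn : j < n) (f : ℂ[X]) (m l : ℕ)
    (h : f ^ n * X ^ m = (C y * Q w y A) ^ i * (C z * Q w z B) ^ j * X ^ l) : Q w y A = Q w z B := by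
  have hQ := (Q_monic w y hA)
  have hQ' := (Q_monic w z hB)
  have n1 : C y * Q w y A ≠ 0 := mul_ne_zero (C_ne_zero.2 hy) hQ.ne_zero
  have n2 : C z * Q w z B ≠ 0 := mul_ne_zero (C_ne_zero.2 hz) hQ'.ne_zero
  have hR1 : (C y * Q w y A) ^ i * (C z * Q w z B) ^ j ≠ 0 := mul_ne_zero (pow_ne_zero _ n1) (pow_ne_zero _ n2)
  have hR : (C y * Q w y A) ^ i * (C z * Q w z B) ^ j * X ^ l ≠ 0 := mul_ne_zero hR1 (pow_ne_zero _ X_ne_zero)
  have hL : f ^ n * X ^ m ≠ 0 := by rw [h]; exact hR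
  have hf : f ≠ 0 := by
    rintro rfl
    rw [zero_pow (by omega), zero_mul] at hL
    exact hL rfl
  have hiff : ∀ r, (Q w y A).eval r = 0 ↔ (Q w z B).eval r = 0 := by
    intro r
    by_cases hr0 : r = 0
    · subst hr0
      rw [Q_zero w y hA, Q_zero w z hB]
      simp [hy, hz]
    have h1 := congrArg (rootMultiplicity r) h
    rw [rootMultiplicity_mul hL, rootMultiplicity_mul hR, mult_X hr0, mult_X hr0, rootMultiplicity_mul hR1,
      mult_pow hf, mult_pow n1, mult_pow n2, rootMultiplicity_mul n1, rootMultiplicity_mul n2, mult_C hy,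
      mult_C hz] at h1
    have h2 := mult_le hA hw hy r
    have h3 := mult_le hB hw hz r
    rw [← mult_pos (w := w) (y := y) hA r, ← mult_pos (w := w) (y := z) hB r]
    generalize (Q w y A).rootMultiplicity r = μ at *
    generalize (Q w z B).rootMultiplicity r = ν at *
    have hni : ¬ n ∣ i := fun hd => absurd (Nat.le_of_dvd hi hd) (by omega)
    have hnj : ¬ n ∣ j := fun hd => absurd (Nat.le_of_dvd hj hd) (by omega)
    constructor
    · intro hμ
      have hμ1 : μ = 1 := by omega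
      by_contra hν
      have hν0 : ν = 0 := by omega
      subst hμ1 hν0
      exact hni ⟨_, by simpa using h1.symm⟩
    · intro hν
      have hν1 : ν = 1 := by omega
      by_contra hμ
      have hμ0 : μ = 0 := by omega
      subst hν1 hμ0
      exact hnj ⟨_, by simpa using h1.symm⟩
  have nd : (Q w y A).roots.Nodup := by
    classical
    rw [Multiset.nodup_iff_count_le_one]
    intro r
    rw [count_roots]
    exact mult_le hA hw hy r
  have nd' : (Q w z B).roots.Nodup := by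
    classical
    rw [Multiset.nodup_iff_count_le_one]
    intro r
    rw [count_roots]
    exact mult_le hB hw hz r
  have hroots : (Q w y A).roots = (Q w z B).roots := by
    rw [Multiset.Nodup.ext nd nd']
    intro r
    rw [mem_roots hQ.ne_zero, mem_roots hQ'.ne_zero]
    exact hiff r
  have e1 := prod_multiset_X_sub_C_of_monic_of_roots_card_eq hQ
    (IsAlgClosed.splits (Q w y A)).natDegree_eq_card_roots.symm
  have e2 := prod_multiset_X_sub_C_of_monic_of_roots_card_eq hQ'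
    (IsAlgClosed.splits (Q w z B)).natDegree_eq_card_roots.symm
  rw [← e1, ← e2, hroots]

/-- the comparison of the coefficients -/
lemma coeffs {w y z : ℂ} {A B : ℕ} (hA : 0 < A) (hB : 0 < B) (hy : y ≠ 0) (hz : z ≠ 0)
    (h : Q w y A = Q w z B) : z = y ∨ (w = 0 ∧ z = -y) := by
  have hAB : A = B := by
    have h1 := congrArg natDegree h
    rw [Q_natDegree w y hA, Q_natDegree w z hB] at h1
    omega
  subst hAB
  have h1 := congrArg (eval 0) h
  rw [Q_zero w y hA, Q_zero w z hB] at h1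
  have h2 := congrArg (fun P => P.coeff A) h
  simp only [Q_coeff w y hA, Q_coeff w z hA] at h2
  have h3 : y ^ 2 = z ^ 2 := inv_injective h1
  rcases sq_eq_sq_iff_eq_or_eq_neg.1 h3 with h4 | h4
  · exact Or.inl h4.symm
  · right
    have h5 : z = -y := by rw [h4, neg_neg]
    refine ⟨?_, h5⟩
    subst h5
    field_simp at h2
    have h6 : (2 : ℂ) * w = 0 := by linear_combination (-1 : ℂ) * h2
    simpa using h6

/-- `HH * T ^ A` is a polynomial -/
lemma HH_T {w y : ℂ} (hy : y ≠ 0) (A : ℕ) :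
    HH w y A * LaurentPolynomial.T A = toLaurent (C y * Q w y A) := by
  have hP : C y * Q w y A = C y * X ^ (2 * A) - C w * X ^ A + C y⁻¹ := by
    unfold Q
    have e1 : (C y : ℂ[X]) * C (y ^ 2)⁻¹ = C y⁻¹ := by
      rw [← C_mul]
      congr 1
      field_simp
    have e2 : (C y : ℂ[X]) * C (w / y) = C w := by
      rw [← C_mul]
      congr 1
      field_simp
    linear_combination e1 - e2 * X ^ A
  rw [hP]
  simp only [map_mul, map_pow, map_add, map_sub, toLaurent_C, toLaurent_X]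
  unfold HH
  have e1 : (LaurentPolynomial.T (1 : ℤ) : ℂ[T;T⁻¹]) ^ A = LaurentPolynomial.T (A : ℤ) := by
    rw [LaurentPolynomial.T_pow]; simp
  have e2 : (LaurentPolynomial.T (1 : ℤ) : ℂ[T;T⁻¹]) ^ (2 * A) = LaurentPolynomial.T (A : ℤ) ^ 2 := by
    rw [mul_comm, pow_mul, e1]
  have e4 : (LaurentPolynomial.T (-(A : ℤ)) : ℂ[T;T⁻¹]) * LaurentPolynomial.T (A : ℤ) = 1 := by
    rw [← LaurentPolynomial.T_add]; simp
  rw [e1, e2]
  linear_combination LaurentPolynomial.C y⁻¹ * e4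

/-- normalisation of the sign of the exponent -/
lemma norm_exp {x : ℂ} (w : ℂ) (hx : x ≠ 0) {a : ℤ} (ha : a ≠ 0) : ∃ (y : ℂ) (A : ℕ), y ≠ 0 ∧ 0 < A ∧
    y + y⁻¹ = x + x⁻¹ ∧ HH w x a = HH w y A := by
  unfold HH
  rcases lt_or_gt_of_ne ha with h | h
  · refine ⟨x⁻¹, a.natAbs, inv_ne_zero hx, Int.natAbs_pos.2 ha, by rw [inv_inv, add_comm], ?_⟩
    have e : ((a.natAbs : ℕ) : ℤ) = -a := by omega
    rw [e, inv_inv, neg_neg, add_comm]
  · refine ⟨x, a.natAbs, hx, Int.natAbs_pos.2 ha, rfl, ?_⟩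
    have e : ((a.natAbs : ℕ) : ℤ) = a := by omega
    rw [e]

lemma T_pow_mul (m n : ℕ) : (LaurentPolynomial.T (m : ℤ) : ℂ[T;T⁻¹]) ^ n = toLaurent (X ^ (m * n)) := by
  rw [map_pow, toLaurent_X, LaurentPolynomial.T_pow, LaurentPolynomial.T_pow]
  congr 1
  push_cast
  ring

end Zer

/-- **ZER** -/
theorem zer : S_ZER := by
  intro w x x' a b n i j Y hw hx hx' ha hi hin hj hjn
  obtain ⟨y, A, hy, hA, hyx, hya⟩ := Zer.norm_exp w hx ha
  obtain ⟨m, f, hf⟩ := Y.exists_T_pow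
  have hfn : toLaurent (f ^ n) = Y ^ n * toLaurent (X ^ (m * n)) := by
    rw [map_pow, hf, mul_pow, Zer.T_pow_mul]
  constructor
  · intro κ hκ h
    rw [hya] at h
    refine Zer.not_pow hA hw hy hκ hi hin f (A * i) (m * n) ?_
    apply toLaurent_injective
    rw [map_mul, hfn, h, map_mul, map_mul, map_pow toLaurent (C y * Zer.Q w y A) i, ← Zer.HH_T hy, toLaurent_C,
      mul_pow, Zer.T_pow_mul]
    ring
  · intro hb h
    obtain ⟨z, B, hz, hB, hzx, hzb⟩ := Zer.norm_exp w hx' hb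
    rw [hya, hzb] at h
    have h1 : Zer.Q w y A = Zer.Q w z B := by
      refine Zer.eq_of_pow hA hB hw hy hz hi hin hj hjn f (A * i + B * j) (m * n) ?_
      apply toLaurent_injective
      rw [map_mul, hfn, h, map_mul, map_mul, map_pow toLaurent (C y * Zer.Q w y A) i,
        map_pow toLaurent (C z * Zer.Q w z B) j, ← Zer.HH_T hy, ← Zer.HH_T hz, mul_pow, mul_pow, Zer.T_pow_mul,
        Zer.T_pow_mul, pow_add, map_mul]
      ring
    rcases Zer.coeffs hA hB hy hz h1 with h2 | ⟨h2, h3⟩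
    · left
      rw [← hzx, ← hyx, h2]
    · right
      refine ⟨h2, ?_⟩
      rw [← hzx, ← hyx, h3, inv_neg]
      ring

end Pool.Agent.K9h21.RP
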